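import Pool.Agent.Lib.MP_c624c9_nt.EX.Spec

/-!
# Module CF
-/

set_option autoImplicit false

namespace Pool.Agent.Lib.MP_c624c9_nt.EX

namespace CFM

/-- The next complete quotient. -/
noncomputable def nx (ξ : ℝ) : ℝ := (Int.fract ξ)⁻¹

/-- Numerator and denominator of the convergent of index `n`, and of the previous one. -/
noncomputable def mt : ℕ → ℝ → ℕ × ℕ × ℕ × ℕ
  | 0, ξ => (⌊ξ⌋₊, 1, 1, 0)
  | n + 1, ξ => (⌊ξ⌋₊ * (mt n (nx ξ)).1 + (mt n (nx ξ)).2.1, (mt n (nx ξ)).1,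
      ⌊ξ⌋₊ * (mt n (nx ξ)).2.2.1 + (mt n (nx ξ)).2.2.2, (mt n (nx ξ)).2.2.1)

/-- The tail. -/
noncomputable def tl : ℕ → ℝ → ℝ
  | 0, ξ => nx ξ
  | n + 1, ξ => tl n (nx ξ)

structure Good (ξ : ℝ) : Prop where
  irr : Irrational ξ
  one : 1 < ξ

lemma Good.fract_pos {ξ : ℝ} (h : Good ξ) : 0 < Int.fract ξ := by
  refine lt_of_le_of_ne (Int.fract_nonneg ξ) fun h0 => ?_
  have h1 : ξ = (⌊ξ⌋ : ℝ) := by
    have := Int.floor_add_fract ξ
    rw [← h0, add_zero] at this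
    exact this.symm
  exact h.irr ⟨(⌊ξ⌋ : ℚ), by push_cast; exact h1.symm⟩

lemma Good.next {ξ : ℝ} (h : Good ξ) : Good (nx ξ) := by
  refine ⟨?_, ?_⟩
  · unfold nx
    rw [irrational_inv_iff]
    unfold Int.fract
    exact h.irr.sub_intCast _
  · exact (one_lt_inv₀ h.fract_pos).mpr (Int.fract_lt_one ξ)

lemma Good.floor_cast {ξ : ℝ} (h : Good ξ) : ((⌊ξ⌋₊ : ℕ) : ℝ) = (⌊ξ⌋ : ℝ) := by
  exact natCast_floor_eq_intCast_floor (by linarith [h.one])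

lemma Good.floor_pos {ξ : ℝ} (h : Good ξ) : 1 ≤ ⌊ξ⌋₊ := Nat.le_floor (by simpa using h.one.le)

lemma Good.eq {ξ : ℝ} (h : Good ξ) : ξ * nx ξ = ⌊ξ⌋₊ * nx ξ + 1 := by
  have h1 := Int.floor_add_fract ξ
  have h2 := h.fract_pos.ne'
  rw [h.floor_cast]
  unfold nx
  field_simp
  linarith

lemma main (n : ℕ) : ∀ ξ : ℝ, Good ξ →
    1 ≤ (mt n ξ).1 ∧ 1 ≤ (mt n ξ).2.1 ∧ 1 ≤ (mt n ξ).2.2.1 ∧
    ξ.convergent n = ((mt n ξ).1 : ℚ) / ((mt n ξ).2.1 : ℚ) ∧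
    (((mt n ξ).1 : ℤ) * (mt n ξ).2.2.2 - (mt n ξ).2.2.1 * (mt n ξ).2.1 = 1 ∨
      ((mt n ξ).1 : ℤ) * (mt n ξ).2.2.2 - (mt n ξ).2.2.1 * (mt n ξ).2.1 = -1) ∧
    1 < tl n ξ ∧
    ξ * ((mt n ξ).2.1 * tl n ξ + (mt n ξ).2.2.2) = (mt n ξ).1 * tl n ξ + (mt n ξ).2.2.1 := by
  induction n with
  | zero =>
    intro ξ h
    refine ⟨h.floor_pos, le_refl _, le_refl _, ?_, ?_, h.next.one, ?_⟩
    · rw [Real.convergent_zero]
      have h1 := h.floor_cast
      have h2 : ((⌊ξ⌋₊ : ℕ) : ℤ) = ⌊ξ⌋ := by exact_mod_cast h1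
      simp only [mt, Nat.cast_one, div_one]
      rw [← h2]
      simp
    · right
      simp [mt]
    · simp only [mt, tl, Nat.cast_one, Nat.cast_zero, one_mul, add_zero]
      exact h.eq
  | succ n ih =>
    intro ξ h
    obtain ⟨h1, h2, h3, h4, h5, h6, h7⟩ := ih (nx ξ) h.next
    have ha := h.floor_pos
    have hfl : ((⌊ξ⌋₊ : ℕ) : ℤ) = ⌊ξ⌋ := by
      have := h.floor_cast
      exact_mod_cast this
    refine ⟨?_, h1, ?_, ?_, ?_, h6, ?_⟩
    · show 1 ≤ ⌊ξ⌋₊ * (mt n (nx ξ)).1 + (mt n (nx ξ)).2.1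
      omega
    · show 1 ≤ ⌊ξ⌋₊ * (mt n (nx ξ)).2.2.1 + (mt n (nx ξ)).2.2.2
      have : 1 ≤ ⌊ξ⌋₊ * (mt n (nx ξ)).2.2.1 := Nat.one_le_iff_ne_zero.mpr (by positivity)
      omega
    · rw [Real.convergent_succ]
      have h8 : (Int.fract ξ)⁻¹ = nx ξ := rfl
      rw [h8, h4, ← hfl]
      have h9 : ((mt n (nx ξ)).1 : ℚ) ≠ 0 := by
        have : (mt n (nx ξ)).1 ≠ 0 := by omega
        exact_mod_cast this
      simp only [mt]
      push_cast
      rw [inv_div]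
      field_simp
    · simp only [mt]
      push_cast
      rcases h5 with h5 | h5
      · right
        linear_combination -h5
      · left
        linear_combination -h5
    · simp only [mt, tl]
      push_cast
      have h8 := h.eq
      have h9 : nx ξ ≠ 0 := by
        have := h.next.one
        positivity
      apply mul_left_cancel₀ h9
      linear_combination (((mt n (nx ξ)).1 : ℝ) * tl n (nx ξ) + (mt n (nx ξ)).2.2.1) * h8 - h7

lemma step (n : ℕ) : ∀ ξ : ℝ, Good ξ →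
    (mt (n + 1) ξ).2.2.1 = (mt n ξ).1 ∧ (mt (n + 1) ξ).2.2.2 = (mt n ξ).2.1 ∧
    (mt n ξ).1 < (mt (n + 1) ξ).1 ∧ (mt n ξ).2.1 ≤ (mt (n + 1) ξ).2.1 := by
  induction n with
  | zero =>
    intro ξ h
    have h1 := h.floor_pos
    have h2 := h.next.floor_pos
    refine ⟨by simp [mt], by simp [mt], ?_, ?_⟩
    · show ⌊ξ⌋₊ < ⌊ξ⌋₊ * ⌊nx ξ⌋₊ + 1
      nlinarith
    · exact h2
  | succ n ih =>
    intro ξ h
    obtain ⟨h1, h2, h3, h4⟩ := ih (nx ξ) h.next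
    have ha := h.floor_pos
    refine ⟨?_, ?_, ?_, ?_⟩
    · show ⌊ξ⌋₊ * (mt (n + 1) (nx ξ)).2.2.1 + (mt (n + 1) (nx ξ)).2.2.2 =
        ⌊ξ⌋₊ * (mt n (nx ξ)).1 + (mt n (nx ξ)).2.1
      rw [h1, h2]
    · exact h1
    · show ⌊ξ⌋₊ * (mt n (nx ξ)).1 + (mt n (nx ξ)).2.1 <
        ⌊ξ⌋₊ * (mt (n + 1) (nx ξ)).1 + (mt (n + 1) (nx ξ)).2.1
      have : ⌊ξ⌋₊ * (mt n (nx ξ)).1 < ⌊ξ⌋₊ * (mt (n + 1) (nx ξ)).1 :=
        Nat.mul_lt_mul_of_pos_left h3 (by omega)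
      omega
    · exact h3.le

lemma norm_bound (n : ℕ) (ξ : ℝ) (h : Good ξ) :
    |((mt n ξ).1 : ℝ) ^ 2 - ξ ^ 2 * ((mt n ξ).2.1 : ℝ) ^ 2| < 2 * ξ := by
  obtain ⟨h1, h2, h3, h4, h5, h6, h7⟩ := main n ξ h
  have hξ := h.one
  set P : ℝ := ((mt n ξ).1 : ℝ) with hP
  set Q : ℝ := ((mt n ξ).2.1 : ℝ) with hQ
  set P' : ℝ := ((mt n ξ).2.2.1 : ℝ) with hP'
  set Q' : ℝ := ((mt n ξ).2.2.2 : ℝ) with hQ'
  set ω := tl n ξ with hω
  have hP1 : 1 ≤ P := by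
    rw [hP]
    exact_mod_cast h1
  have hQ1 : 1 ≤ Q := by
    rw [hQ]
    exact_mod_cast h2
  have hQ'0 : 0 ≤ Q' := Nat.cast_nonneg _
  have hdet : (P * Q' - P' * Q) = 1 ∨ (P * Q' - P' * Q) = -1 := by
    rcases h5 with h5 | h5
    · left
      rw [hP, hQ, hP', hQ']
      exact_mod_cast h5
    · right
      rw [hP, hQ, hP', hQ']
      exact_mod_cast h5
  have he : (P - Q * ξ) * (Q * ω + Q') = P * Q' - P' * Q := by
    linear_combination (-Q) * h7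
  have habs : |P - Q * ξ| * (Q * ω + Q') = 1 := by
    have h8 : 0 < Q * ω + Q' := by positivity
    rw [← abs_of_pos h8, ← abs_mul, he]
    rcases hdet with h9 | h9 <;> rw [h9] <;> simp
  set ε := |P - Q * ξ| with hε
  have hε0 : 0 < ε := by
    rcases (abs_nonneg (P - Q * ξ)).lt_or_eq with h8 | h8
    · exact h8
    · rw [hε, ← h8] at habs
      simp at habs
  have hlt : ε * (Q + Q') < 1 := by
    rw [← habs]
    apply mul_lt_mul_of_pos_left _ hε0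
    nlinarith
  have hfac : P ^ 2 - ξ ^ 2 * Q ^ 2 = (P - Q * ξ) * (P + Q * ξ) := by ring
  have hpos : 0 < P + Q * ξ := by positivity
  rw [hfac, abs_mul, abs_of_pos hpos, ← hε]
  have hεQ : ε * Q < 1 := by nlinarith
  rcases lt_or_ge P (Q * ξ) with hlt' | hge
  · have h8 : ε * (P + Q * ξ) < ε * (2 * (Q * ξ)) := by
      apply mul_lt_mul_of_pos_left _ hε0
      linarith
    nlinarith
  · have hεe : ε = P - Q * ξ := by
      rw [hε]
      exact abs_of_nonneg (by linarith)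
    have hQ'1 : 1 ≤ Q' := by
      rcases n with _ | n
      · exfalso
        have h8 : P = (⌊ξ⌋₊ : ℝ) := rfl
        have h9 : Q = 1 := by
          show ((1 : ℕ) : ℝ) = 1
          simp
        have h10 := h.floor_cast
        have h11 : (⌊ξ⌋ : ℝ) < ξ := by
          have := Int.floor_add_fract ξ
          linarith [h.fract_pos]
        rw [h8, h9, h10] at hge
        linarith
      · have h8 := (step n ξ h).2.1
        have h9 := (main n ξ h).2.1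
        rw [hQ', h8]
        exact_mod_cast h9
    have h8 : ε < 1 - ε * Q := by nlinarith
    have h9 : P + Q * ξ = 2 * (Q * ξ) + ε := by linarith
    rw [h9]
    nlinarith

end CFM

open CFM

theorem specCF : SpecCF := by
  intro k hk
  have h0 : k ≠ 0 := by
    rintro rfl
    exact hk ⟨0, rfl⟩
  have h1 : k ≠ 1 := by
    rintro rfl
    exact hk ⟨1, rfl⟩
  have hG : Good (Real.sqrt (k : ℝ)) := by
    refine ⟨irrational_sqrt_natCast_iff.mpr hk, ?_⟩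
    have h2 : (1 : ℝ) < k := by
      have : 1 < k := by omega
      exact_mod_cast this
    rw [← Real.sqrt_one]
    exact Real.sqrt_lt_sqrt (by norm_num) h2
  have hrk : Real.sqrt (k : ℝ) ^ 2 = k := Real.sq_sqrt (Nat.cast_nonneg k)
  refine ⟨fun i => (mt i (Real.sqrt k)).1, fun i => (mt i (Real.sqrt k)).2.1, ?_, ?_, ?_, ?_, ?_, ?_⟩
  · intro i
    obtain ⟨h1, h2, h3, h4, h5, h6, h7⟩ := main i _ hG
    refine ⟨h1, h2, ?_, h4⟩
    rw [← Nat.isCoprime_iff_coprime]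
    rcases h5 with h5 | h5
    · exact ⟨(mt i (Real.sqrt k)).2.2.2, -((mt i (Real.sqrt k)).2.2.1 : ℤ), by linear_combination h5⟩
    · exact ⟨-((mt i (Real.sqrt k)).2.2.2 : ℤ), (mt i (Real.sqrt k)).2.2.1, by
        linear_combination -h5⟩
  · exact strictMono_nat_of_lt_succ fun n => (step n _ hG).2.2.1
  · exact monotone_nat_of_le_succ fun n => (step n _ hG).2.2.2
  · intro i
    have h2 := norm_bound i _ hG
    rw [hrk] at h2
    have h3 : ((nm k (mt i (Real.sqrt k)).1 (mt i (Real.sqrt k)).2.1 : ℤ) : ℝ) =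
        ((mt i (Real.sqrt k)).1 : ℝ) ^ 2 - k * ((mt i (Real.sqrt k)).2.1 : ℝ) ^ 2 := by
      unfold nm
      push_cast
      ring
    rw [← h3] at h2
    have h4 : ((nm k (mt i (Real.sqrt k)).1 (mt i (Real.sqrt k)).2.1 : ℤ) : ℝ) ^ 2 <
        4 * (k : ℝ) := by
      have h5 : (2 * Real.sqrt (k : ℝ)) ^ 2 = 4 * k := by
        rw [mul_pow, hrk]
        norm_num
      rw [← h5, ← sq_abs]
      exact pow_lt_pow_left₀ h2 (abs_nonneg _) (by norm_num)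
    exact_mod_cast h4
  · exact Real.nat_floor_real_sqrt_eq_nat_sqrt
  · rfl

end Pool.Agent.Lib.MP_c624c9_nt.EX
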