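import Pool.Agent.Lib.MP_c624c9_nt.EX.Spec

/-!
# Module CNT: counting the possible exceptions
-/

set_option autoImplicit false

namespace Pool.Agent.Lib.MP_c624c9_nt.EX

theorem specCNT : SpecCNT := by
  intro X
  set t : ℝ := (4 * (X : ℝ)) ^ (1 / 4 : ℝ) with ht
  have h4X : (0 : ℝ) ≤ 4 * (X : ℝ) := by positivity
  have ht0 : 0 ≤ t := Real.rpow_nonneg h4X _
  have ht4 : t ^ 4 = 4 * (X : ℝ) := by
    rw [ht, ← Real.rpow_natCast, ← Real.rpow_mul h4X]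
    norm_num
  set M : ℕ := ⌊t⌋₊ with hM
  have hMt : (M : ℝ) ≤ t := Nat.floor_le ht0
  let F : Finset (Σ _ : ℕ, ℕ) := (Finset.Icc 1 M).sigma (fun s => Finset.range (4 * s ^ 2))
  have hsub : {k : ℕ | k ≤ X ∧ ∃ s : ℕ, s ^ 2 ∣ 4 * k ∧ k < s ^ 4 ∧ s ^ 4 < 4 * k} ⊆
      ((F.image (fun p => p.1 ^ 2 * p.2 / 4) : Finset ℕ) : Set ℕ) := by
    rintro k ⟨hkX, s, ⟨u, hu⟩, h1, h2⟩
    have hs : 1 ≤ s := by
      rcases Nat.eq_zero_or_pos s with h | h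
      · subst h
        simp at h1
      · exact h
    have hsM : s ≤ M := by
      rw [hM]
      apply Nat.le_floor
      have h3 : (s : ℝ) ^ 4 ≤ t ^ 4 := by
        rw [ht4]
        have h4 : s ^ 4 ≤ 4 * X := by omega
        exact_mod_cast h4
      exact le_of_pow_le_pow_left₀ (by norm_num) ht0 h3
    have hu4 : u < 4 * s ^ 2 := by
      have h5 : s ^ 2 * u < s ^ 2 * (4 * s ^ 2) := by
        rw [← hu]
        calc 4 * k < 4 * s ^ 4 := by omega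
          _ = s ^ 2 * (4 * s ^ 2) := by ring
      exact lt_of_mul_lt_mul_left h5 (Nat.zero_le _)
    rw [Finset.mem_coe, Finset.mem_image]
    refine ⟨⟨s, u⟩, ?_, ?_⟩
    · rw [Finset.mem_sigma, Finset.mem_Icc, Finset.mem_range]
      exact ⟨⟨hs, hsM⟩, hu4⟩
    · show s ^ 2 * u / 4 = k
      rw [← hu]
      omega
  have hcard : F.card ≤ 4 * M ^ 3 := by
    rw [Finset.card_sigma]
    calc ∑ s ∈ Finset.Icc 1 M, (Finset.range (4 * s ^ 2)).card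
        ≤ ∑ s ∈ Finset.Icc 1 M, 4 * M ^ 2 := by
          apply Finset.sum_le_sum
          intro s hs
          rw [Finset.card_range]
          have := (Finset.mem_Icc.1 hs).2
          gcongr
      _ = 4 * M ^ 3 := by
          rw [Finset.sum_const, Nat.card_Icc, smul_eq_mul]
          simp only [Nat.add_sub_cancel]
          ring
  have h6 : ({k : ℕ | k ≤ X ∧ ∃ s : ℕ, s ^ 2 ∣ 4 * k ∧ k < s ^ 4 ∧ s ^ 4 < 4 * k}.ncard) ≤
      4 * M ^ 3 := by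
    refine (Set.ncard_le_ncard hsub (Finset.finite_toSet _)).trans ?_
    rw [Set.ncard_coe_finset]
    exact Finset.card_image_le.trans hcard
  have h7 : t ^ 3 ≤ 3 * (X : ℝ) ^ (3 / 4 : ℝ) := by
    have hX : (0 : ℝ) ≤ (X : ℝ) := Nat.cast_nonneg _
    have e : t ^ 3 = (4 : ℝ) ^ (3 / 4 : ℝ) * (X : ℝ) ^ (3 / 4 : ℝ) := by
      rw [ht, ← Real.rpow_natCast, ← Real.rpow_mul h4X, ← Real.mul_rpow (by norm_num) hX]
      norm_num
    rw [e]
    have h8 : (4 : ℝ) ^ (3 / 4 : ℝ) ≤ 3 := by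
      have h9 : ((4 : ℝ) ^ (3 / 4 : ℝ)) ^ 4 ≤ (3 : ℝ) ^ 4 := by
        rw [← Real.rpow_natCast, ← Real.rpow_mul (by norm_num)]
        norm_num
      exact le_of_pow_le_pow_left₀ (by norm_num) (by norm_num) h9
    exact mul_le_mul_of_nonneg_right h8 (Real.rpow_nonneg hX _)
  calc ({k : ℕ | k ≤ X ∧ ∃ s : ℕ, s ^ 2 ∣ 4 * k ∧ k < s ^ 4 ∧ s ^ 4 < 4 * k}.ncard : ℝ)
      ≤ 4 * (M : ℝ) ^ 3 := by exact_mod_cast h6
    _ ≤ 4 * t ^ 3 := by gcongr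
    _ ≤ 12 * (X : ℝ) ^ (3 / 4 : ℝ) := by linarith

end Pool.Agent.Lib.MP_c624c9_nt.EX
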