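import Pool.Agent.Lib.MP_c624c9_nt.EX.Spec

/-! # FA: the first four convergents of the square root of `(2w-1)(2w+1)^3` -/

set_option autoImplicit false

namespace Pool.Agent.Lib.MP_c624c9_nt.EX

namespace FAM

lemma step {s : ℝ} {K : ℤ} (hs : s ^ 2 = K) (P Q P' Q' a : ℤ) (hQ0 : 0 < Q)
    (hQ' : 0 < Q') (hQ : Q * Q' = K - P' ^ 2) (hP : P' = a * Q - P)
    (h1 : (a : ℝ) * Q ≤ P + s) (h2 : P + s < (a + 1) * Q) (n : ℕ) :
    ((P + s) / Q : ℝ).convergent 0 = a ∧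
    ((P + s) / Q : ℝ).convergent (n + 1) = a + (((P' + s) / Q' : ℝ).convergent n)⁻¹ := by
  have hQR : (0 : ℝ) < Q := by exact_mod_cast hQ0
  have hQR' : (0 : ℝ) < Q' := by exact_mod_cast hQ'
  have hfl : ⌊((P + s) / Q : ℝ)⌋ = a := Int.floor_eq_iff.mpr
    ⟨by rw [le_div_iff₀ hQR]; exact h1, by rw [div_lt_iff₀ hQR]; exact h2⟩
  have hQe : (Q : ℝ) * Q' = K - (P' : ℝ) ^ 2 := by exact_mod_cast hQ
  have hPe : (P' : ℝ) = a * Q - P := by exact_mod_cast hP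
  refine ⟨by rw [Real.convergent_zero, hfl], ?_⟩
  rw [Real.convergent_succ, hfl]
  have hfr : (Int.fract ((P + s) / Q : ℝ))⁻¹ = (P' + s) / Q' := by
    rw [Int.fract, hfl]
    have e1 : ((P + s) / Q : ℝ) - a = (s - P') / Q := by
      rw [hPe]; field_simp; ring
    have hprod : (s - P') * (s + P') = Q * Q' := by
      rw [hQe, ← hs]; ring
    have hne : s - P' ≠ 0 := by
      intro h0
      rw [h0, zero_mul] at hprod
      have := mul_pos hQR hQR'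
      linarith
    rw [e1, inv_div, div_eq_div_iff hne hQR'.ne']
    linarith [hprod]
  rw [hfr]

end FAM

theorem specFA : SpecFA := by
  intro w hw
  set W : ℤ := (w : ℤ) with hWdef
  have hW : 2 ≤ W := by rw [hWdef]; exact_mod_cast hw
  have hWR : (2 : ℝ) ≤ (W : ℝ) := by exact_mod_cast hW
  set K : ℤ := (2 * W - 1) * (2 * W + 1) ^ 3 with hK
  have hcast : (((2 * w - 1) * (2 * w + 1) ^ 3 : ℕ) : ℝ) = (K : ℝ) := by
    have h1 : ((2 * w - 1 : ℕ) : ℝ) = 2 * (w : ℝ) - 1 := by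
      rw [Nat.cast_sub (by omega)]
      push_cast
      ring
    rw [hK]
    push_cast
    rw [h1]
    simp [hWdef]
  set s : ℝ := Real.sqrt (K : ℝ) with hsdef
  have hKR : (K : ℝ) = (2 * (W : ℝ) - 1) * (2 * (W : ℝ) + 1) ^ 3 := by rw [hK]; push_cast; ring
  have hK0 : (0 : ℝ) ≤ (K : ℝ) := by
    rw [hKR]
    have : (0 : ℝ) ≤ 2 * (W : ℝ) - 1 := by linarith
    positivity
  have hs : s ^ 2 = (K : ℝ) := Real.sq_sqrt hK0
  have hlo : 4 * (W : ℝ) ^ 2 + 2 * W - 1 < s := by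
    apply Real.lt_sqrt_of_sq_lt
    rw [hKR]
    nlinarith [mul_nonneg (show (0 : ℝ) ≤ (W : ℝ) - 2 by linarith)
      (show (0 : ℝ) ≤ (W : ℝ) - 2 by linarith)]
  have hhi : s < 4 * (W : ℝ) ^ 2 + 2 * W := by
    rw [hsdef, Real.sqrt_lt' (by positivity)]
    rw [hKR]
    nlinarith [mul_pos (show (0 : ℝ) < 2 * (W : ℝ) + 1 by linarith)
      (show (0 : ℝ) < 2 * (W : ℝ) + 1 by linarith)]
  have hW2 : (2 : ℝ) * W ≤ (W : ℝ) ^ 2 := by nlinarith
  have st0 := FAM.step hs 0 1 (4 * W ^ 2 + 2 * W - 1) (4 * W ^ 2 - 2) (4 * W ^ 2 + 2 * W - 1)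
    (by norm_num) (by nlinarith) (by rw [hK]; ring) (by ring)
    (by push_cast; linarith) (by push_cast; linarith)
  have st1 := FAM.step hs (4 * W ^ 2 + 2 * W - 1) (4 * W ^ 2 - 2) (4 * W ^ 2 - 2 * W - 3)
    (8 * W + 5) 2 (by nlinarith) (by linarith) (by rw [hK]; ring) (by ring)
    (by push_cast; linarith) (by push_cast; nlinarith)
  have st2 := FAM.step hs (4 * W ^ 2 - 2 * W - 3) (8 * W + 5) (4 * W ^ 2 - W - 2)
    (3 * W ^ 2 - 1) (W - 1) (by linarith) (by nlinarith) (by rw [hK]; ring) (by ring)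
    (by push_cast; nlinarith) (by push_cast; nlinarith)
  have st3 := FAM.step hs (4 * W ^ 2 - W - 2) (3 * W ^ 2 - 1) (2 * W ^ 2 + W)
    ((2 * W + 1) ^ 2) 2 (by nlinarith) (by positivity) (by rw [hK]; ring) (by ring)
    (by push_cast; nlinarith) (by push_cast; nlinarith)
  have hξ : s = (((0 : ℤ) : ℝ) + s) / ((1 : ℤ) : ℝ) := by simp
  have hc : ∀ i, conv ((2 * w - 1) * (2 * w + 1) ^ 3) i =
      ((((0 : ℤ) : ℝ) + s) / ((1 : ℤ) : ℝ) : ℝ).convergent i := by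
    intro i
    unfold conv
    rw [hcast, ← hsdef, ← hξ]
  have hwq : (2 : ℚ) ≤ (w : ℚ) := by exact_mod_cast hw
  have hw1 : (w : ℚ) - 1 ≠ 0 := by
    intro h; linarith
  have hw2 : 2 * (w : ℚ) - 1 ≠ 0 := by
    intro h; linarith
  have hw0 : (w : ℚ) ≠ 0 := by
    intro h; linarith
  refine ⟨?_, ?_, ?_, ?_⟩
  · rw [hc, (st0 0).1]
    rw [hWdef]; push_cast; ring
  · rw [hc, (st0 0).2, (st1 0).1]
    rw [hWdef]; push_cast; ring
  · rw [hc, (st0 1).2, (st1 0).2, (st2 0).1]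
    rw [hWdef]; push_cast
    have h3 : (2 : ℚ) + ((w : ℚ) - 1)⁻¹ = (2 * (w : ℚ) - 1) / ((w : ℚ) - 1) := by
      field_simp; ring
    rw [h3, inv_div, eq_div_iff hw2, add_mul, div_mul_cancel₀ _ hw2]
    ring
  · rw [hc, (st0 2).2, (st1 1).2, (st2 0).2, (st3 0).1]
    rw [hWdef]; push_cast
    have h3 : ((w : ℚ) - 1) + (2 : ℚ)⁻¹ = (2 * (w : ℚ) - 1) / 2 := by ring
    have h4 : (2 : ℚ) + ((w : ℚ) - 1 + 2⁻¹)⁻¹ = (4 * (w : ℚ)) / (2 * (w : ℚ) - 1) := by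
      rw [h3, inv_div]
      field_simp
      ring
    rw [h4, inv_div]
    field_simp
    ring

end Pool.Agent.Lib.MP_c624c9_nt.EX
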