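import Pool.Agent.Lib.MP_c624c9_nt.EX.Spec

/-!
# FB: the seed of `k = (2w-1)(2w+1)^3` has index 3
-/

set_option autoImplicit false

open OnePoint

namespace Pool.Agent.Lib.MP_c624c9_nt.EX

namespace FBM

theorem kcast (w : ℕ) (hw : 2 ≤ w) :
    (((2 * w - 1) * (2 * w + 1) ^ 3 : ℕ) : ℚ) = (2 * (w : ℚ) - 1) * (2 * w + 1) ^ 3 := by
  push_cast [Nat.cast_sub (show 1 ≤ 2 * w by omega)]
  ring

theorem notSq (w : ℕ) (hw : 2 ≤ w) : ¬ IsSquare ((2 * w - 1) * (2 * w + 1) ^ 3) := by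
  obtain ⟨v, rfl⟩ : ∃ v, w = v + 1 := ⟨w - 1, by omega⟩
  rintro ⟨r, hr⟩
  rw [show 2 * (v + 1) - 1 = 2 * v + 1 by omega] at hr
  have h1 : (4 * v ^ 2 + 10 * v + 5) * (4 * v ^ 2 + 10 * v + 5) < r * r := by
    rw [← hr]
    have : 1 ≤ v := by omega
    nlinarith
  have h2 : r * r < (4 * v ^ 2 + 10 * v + 6) * (4 * v ^ 2 + 10 * v + 6) := by
    rw [← hr]
    nlinarith
  have h3 := Nat.mul_self_lt_mul_self_iff.1 h1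
  have h4 := Nat.mul_self_lt_mul_self_iff.1 h2
  omega

theorem idx0 (w : ℕ) (hw : 2 ≤ w) (z : ℤ)
    (h : R ((2 * w - 1) * (2 * w + 1) ^ 3) (4 * (w : ℚ) ^ 2 + 2 * w - 1) = z) : False := by
  have hwQ : (2 : ℚ) ≤ w := by exact_mod_cast hw
  unfold R at h
  rw [kcast w hw] at h
  have e : (2 * (w : ℚ) - 1) * (2 * w + 1) ^ 3 - (4 * (w : ℚ) ^ 2 + 2 * w - 1) ^ 2 =
      4 * (w : ℚ) ^ 2 - 2 := by ring
  have hD : (0 : ℚ) < 4 * (w : ℚ) ^ 2 - 2 := by nlinarith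
  rw [e, div_eq_iff hD.ne'] at h
  have h' : 4 * (4 * (w : ℤ) ^ 2 + 2 * w - 1) ^ 2 = z * (4 * (w : ℤ) ^ 2 - 2) := by
    exact_mod_cast h
  have hwZ : (2 : ℤ) ≤ w := by exact_mod_cast hw
  obtain ⟨W, hW⟩ : ∃ W : ℤ, W = w := ⟨w, rfl⟩
  rw [← hW] at h' hwZ
  have h'' : 2 * (4 * W ^ 2 + 2 * W - 1) ^ 2 = z * (2 * W ^ 2 - 1) := by linarith
  have h2 : (2 * W ^ 2 - 1) * (z - 8 * (2 * W ^ 2 - 1) - 8 * (2 * W + 1) - 4) = 8 * W + 6 := by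
    linear_combination (-1) * h''
  obtain ⟨q, hq⟩ : ∃ q : ℤ, q = z - 8 * (2 * W ^ 2 - 1) - 8 * (2 * W + 1) - 4 := ⟨_, rfl⟩
  rw [← hq] at h2
  have hD' : 0 < 2 * W ^ 2 - 1 := by nlinarith
  have hq1 : 1 ≤ q := by
    by_contra h3
    have h4 : q ≤ 0 := by omega
    nlinarith
  have hW4 : W ≤ 4 := by
    by_contra h3
    have h4 : 5 ≤ W := by omega
    nlinarith
  have hW' : W = 2 ∨ W = 3 ∨ W = 4 := by omega
  rcases hW' with h3 | h3 | h3 <;> rw [h3] at h2 <;> omega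

theorem idx1 (w : ℕ) (hw : 2 ≤ w) (z : ℤ)
    (h : R ((2 * w - 1) * (2 * w + 1) ^ 3) ((8 * (w : ℚ) ^ 2 + 4 * w - 1) / 2) = z) : False := by
  have hwQ : (2 : ℚ) ≤ w := by exact_mod_cast hw
  unfold R at h
  rw [kcast w hw] at h
  have e : (2 * (w : ℚ) - 1) * (2 * w + 1) ^ 3 - ((8 * (w : ℚ) ^ 2 + 4 * w - 1) / 2) ^ 2 =
      - (8 * (w : ℚ) + 5) / 4 := by ring
  have hD : - (8 * (w : ℚ) + 5) / 4 ≠ 0 := by
    have : - (8 * (w : ℚ) + 5) / 4 < 0 := by linarith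
    exact this.ne
  rw [e, div_eq_iff hD] at h
  have h0 : -4 * (8 * (w : ℚ) ^ 2 + 4 * w - 1) ^ 2 = z * (8 * (w : ℚ) + 5) := by
    linear_combination (-4) * h
  have h' : -4 * (8 * (w : ℤ) ^ 2 + 4 * w - 1) ^ 2 = z * (8 * (w : ℤ) + 5) := by
    exact_mod_cast h0
  have hwZ : (2 : ℤ) ≤ w := by exact_mod_cast hw
  have h2 : (9 : ℤ) = (8 * (w : ℤ) + 5) * (-16 * z - (8 * (w : ℤ) + 5) * (8 * w - 1) ^ 2 +
      6 * (8 * w - 1)) := by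
    linear_combination (-16 : ℤ) * h'
  have h3 : (8 * (w : ℤ) + 5) ∣ 9 := ⟨_, h2⟩
  have h4 := Int.le_of_dvd (by norm_num) h3
  omega

theorem idx2 (w : ℕ) (hw : 2 ≤ w) (z : ℤ)
    (h : R ((2 * w - 1) * (2 * w + 1) ^ 3) ((w * (8 * (w : ℚ) ^ 2 - 3)) / (2 * w - 1)) = z) :
    False := by
  have hwQ : (2 : ℚ) ≤ w := by exact_mod_cast hw
  unfold R at h
  rw [kcast w hw] at h
  have h1 : (2 * (w : ℚ) - 1) ≠ 0 := by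
    have : (0 : ℚ) < 2 * (w : ℚ) - 1 := by linarith
    exact this.ne'
  have e : (2 * (w : ℚ) - 1) * (2 * w + 1) ^ 3 - ((w * (8 * (w : ℚ) ^ 2 - 3)) / (2 * w - 1)) ^ 2 =
      (3 * (w : ℚ) ^ 2 - 1) / (2 * w - 1) ^ 2 := by
    field_simp
    ring
  have hF : (0 : ℚ) < 3 * (w : ℚ) ^ 2 - 1 := by nlinarith
  have hD : (3 * (w : ℚ) ^ 2 - 1) / (2 * w - 1) ^ 2 ≠ 0 := by positivity
  rw [e, div_eq_iff hD] at h
  have h0 : 4 * ((w : ℚ) * (8 * (w : ℚ) ^ 2 - 3)) ^ 2 = z * (3 * (w : ℚ) ^ 2 - 1) := by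
    have h5 : (4 * ((w : ℚ) * (8 * (w : ℚ) ^ 2 - 3)) ^ 2) / (2 * (w : ℚ) - 1) ^ 2 =
        (z * (3 * (w : ℚ) ^ 2 - 1)) / (2 * (w : ℚ) - 1) ^ 2 := by
      rw [div_pow, ← mul_div_assoc, ← mul_div_assoc] at h
      exact h
    exact (div_left_inj' (pow_ne_zero 2 h1)).1 h5
  have h' : 4 * ((w : ℤ) * (8 * (w : ℤ) ^ 2 - 3)) ^ 2 = z * (3 * (w : ℤ) ^ 2 - 1) := by
    exact_mod_cast h0
  have hwZ : (2 : ℤ) ≤ w := by exact_mod_cast hw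
  have h2 : (4 : ℤ) = (3 * (w : ℤ) ^ 2 - 1) * (27 * z - 4 * (64 * (3 * (w : ℤ) ^ 2 - 1) ^ 2 +
      48 * (3 * (w : ℤ) ^ 2 - 1) - 15)) := by
    linear_combination (27 : ℤ) * h'
  have h3 : (3 * (w : ℤ) ^ 2 - 1) ∣ 4 := ⟨_, h2⟩
  have h4 := Int.le_of_dvd (by norm_num) h3
  nlinarith

theorem idx3 (w : ℕ) (hw : 2 ≤ w) :
    R ((2 * w - 1) * (2 * w + 1) ^ 3) (((8 * (w : ℚ) ^ 2 - 1) * (2 * w + 1)) / (4 * w)) =
      ((-4 * (8 * (w : ℤ) ^ 2 - 1) ^ 2 : ℤ) : ℚ) := by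
  have hwQ : (2 : ℚ) ≤ w := by exact_mod_cast hw
  unfold R
  rw [kcast w hw]
  have hw0 : (w : ℚ) ≠ 0 := by linarith
  have h2 : (2 * (w : ℚ) + 1) ≠ 0 := by
    have : (0 : ℚ) < 2 * (w : ℚ) + 1 := by linarith
    exact this.ne'
  have e : (2 * (w : ℚ) - 1) * (2 * w + 1) ^ 3 -
      (((8 * (w : ℚ) ^ 2 - 1) * (2 * w + 1)) / (4 * w)) ^ 2 =
      - (2 * (w : ℚ) + 1) ^ 2 / (16 * w ^ 2) := by
    field_simp
    ring
  rw [e]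
  push_cast
  have hD : - (2 * (w : ℚ) + 1) ^ 2 / (16 * w ^ 2) ≠ 0 := by
    rw [neg_div]
    exact neg_ne_zero.2 (by positivity)
  rw [div_eq_iff hD]
  field_simp
  ring

end FBM

open FBM in
/-- FB: seed index 3 in the family -/
theorem specFB (hFA : SpecFA) (_hRG : SpecRG) : SpecFB := by
  intro w hw
  obtain ⟨h0, h1, h2, h3⟩ := hFA w hw
  refine ⟨notSq w hw, ⟨⟨-4 * (8 * (w : ℤ) ^ 2 - 1) ^ 2, ?_⟩, ?_⟩⟩
  · rw [h3]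
    exact idx3 w hw
  · rintro j hj ⟨z, hz⟩
    have hj' : j = 0 ∨ j = 1 ∨ j = 2 := by omega
    rcases hj' with rfl | rfl | rfl
    · rw [h0] at hz
      exact idx0 w hw z hz
    · rw [h1] at hz
      exact idx1 w hw z hz
    · rw [h2] at hz
      exact idx2 w hw z hz

end Pool.Agent.Lib.MP_c624c9_nt.EX
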