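import Pool.Agent.Lib.MP_c624c9_nt.EX.Spec

/-!
# FC: the first Pellian iterate of the seed of `k = (2w-1)(2w+1)^3`
-/

set_option autoImplicit false

open OnePoint

namespace Pool.Agent.Lib.MP_c624c9_nt.EX

namespace FCM

/-- the coefficients of `θ^(2n)`, `θ = x + √(x²-1)`, `x = t + 1` -/
def ab (t : ℕ) : ℕ → ℕ × ℕ
  | 0 => (1, 0)
  | n + 1 => ((2 * t ^ 2 + 4 * t + 1) * (ab t n).1 + (2 * t + 2) * (t * (t + 2)) * (ab t n).2,
      (2 * t + 2) * (ab t n).1 + (2 * t ^ 2 + 4 * t + 1) * (ab t n).2)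

theorem ab_norm (t n : ℕ) : ((ab t n).1 : ℤ) ^ 2 - (t * (t + 2)) * ((ab t n).2 : ℤ) ^ 2 = 1 := by
  induction n with
  | zero => simp [ab]
  | succ n ih =>
    simp only [ab]
    push_cast
    linear_combination ih

theorem ab_coprime (t n : ℕ) : Nat.Coprime (ab t n).1 (ab t n).2 := by
  have h := ab_norm t n
  rw [← Nat.isCoprime_iff_coprime]
  exact ⟨((ab t n).1 : ℤ), -((t : ℤ) * (t + 2)) * ((ab t n).2 : ℤ), by linear_combination h⟩

theorem ab_pos (t n : ℕ) : 0 < (ab t n).1 := by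
  induction n with
  | zero => simp [ab]
  | succ n ih => simp only [ab]; positivity

theorem ab_pos' (t n : ℕ) : 0 < (ab t (n + 1)).2 := by
  have := ab_pos t n
  simp only [ab]; positivity

theorem ab_mod (t n : ℕ) : ((t : ℤ) + 2 ∣ ((ab t n).1 : ℤ) - 1) ∧
    ((t : ℤ) + 2 ∣ ((ab t n).2 : ℤ) + 2 * n) := by
  induction n with
  | zero => simp [ab]
  | succ n ih =>
    obtain ⟨⟨u, hu⟩, ⟨v, hv⟩⟩ := ih
    simp only [ab]
    push_cast
    constructor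
    · refine ⟨2 * t * (ab t n).1 + (2 * t + 2) * t * (ab t n).2 + u, ?_⟩
      linear_combination hu
    · refine ⟨2 * (ab t n).1 - 2 * u + 2 * t * (ab t n).2 + v, ?_⟩
      linear_combination hv - 2 * hu

theorem ab_dvd_iff (t n : ℕ) (ht : t % 2 = 1) : t + 2 ∣ (ab t n).2 ↔ t + 2 ∣ n := by
  have h := (ab_mod t n).2
  have h1 : t + 2 ∣ (ab t n).2 ↔ ((t : ℤ) + 2) ∣ ((ab t n).2 : ℤ) := by
    rw [← Int.natCast_dvd_natCast]; push_cast; rfl
  have h2 : t + 2 ∣ n ↔ ((t : ℤ) + 2) ∣ 2 * (n : ℤ) := by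
    have h3 : Nat.Coprime (t + 2) 2 := by
      rw [Nat.coprime_comm, Nat.coprime_two_left]
      exact ⟨(t + 1) / 2, by omega⟩
    constructor
    · intro h4
      have : ((t + 2 : ℕ) : ℤ) ∣ (n : ℤ) := Int.natCast_dvd_natCast.2 h4
      push_cast at this
      exact this.mul_left 2
    · intro h4
      have h5 : t + 2 ∣ 2 * n := by
        rw [← Int.natCast_dvd_natCast]; push_cast; exact h4
      exact h3.dvd_of_dvd_mul_left h5
  rw [h1, h2]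
  constructor
  · intro h4
    have := dvd_sub h h4
    simpa using this
  · intro h4
    have := dvd_sub h h4
    simpa using this

theorem pw_ab (t n : ℕ) :
    (pw (t * (t + 2) ^ 3) ((2 * t ^ 2 + 4 * t + 1) * (t + 2)) (2 * t + 2) n).1 =
      (t + 2) ^ n * (ab t n).1 ∧
    (t + 2) * (pw (t * (t + 2) ^ 3) ((2 * t ^ 2 + 4 * t + 1) * (t + 2)) (2 * t + 2) n).2 =
      (t + 2) ^ n * (ab t n).2 := by
  induction n with
  | zero => simp [pw, ab]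
  | succ n ih =>
    obtain ⟨h1, h2⟩ := ih
    simp only [pw, ab]
    constructor
    · linear_combination ((2 * t ^ 2 + 4 * t + 1) * (t + 2)) * h1 +
        (t * (t + 2) ^ 2 * (2 * t + 2)) * h2
    · linear_combination ((2 * t + 2) * (t + 2)) * h1 + ((2 * t ^ 2 + 4 * t + 1) * (t + 2)) * h2

theorem not_square (t : ℕ) (ht : 3 ≤ t) : ¬ IsSquare (t * (t + 2) ^ 3) := by
  rintro ⟨m, hm⟩
  have h1 : t ^ 2 + 3 * t + 1 < m := by
    by_contra h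
    have h' := not_lt.1 h
    have : m * m ≤ (t ^ 2 + 3 * t + 1) * (t ^ 2 + 3 * t + 1) := Nat.mul_le_mul h' h'
    nlinarith
  have h2 : m < t ^ 2 + 3 * t + 2 := by
    by_contra h
    have h' := not_lt.1 h
    have : (t ^ 2 + 3 * t + 2) * (t ^ 2 + 3 * t + 2) ≤ m * m := Nat.mul_le_mul h' h'
    nlinarith
  omega

/-- the value of the iterate in terms of `ab` -/
theorem value (t n : ℕ) :
    ((pw (t * (t + 2) ^ 3) ((2 * t ^ 2 + 4 * t + 1) * (t + 2)) (2 * t + 2) (n + 1)).1 : ℝ) /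
      ((pw (t * (t + 2) ^ 3) ((2 * t ^ 2 + 4 * t + 1) * (t + 2)) (2 * t + 2) (n + 1)).2 : ℝ) =
    ((t : ℝ) + 2) * ((ab t (n + 1)).1 : ℝ) / ((ab t (n + 1)).2 : ℝ) := by
  obtain ⟨h1, h2⟩ := pw_ab t (n + 1)
  have hb : ((ab t (n + 1)).2 : ℝ) ≠ 0 := by
    have := ab_pos' t n
    positivity
  have h1' : ((pw (t * (t + 2) ^ 3) ((2 * t ^ 2 + 4 * t + 1) * (t + 2)) (2 * t + 2)
      (n + 1)).1 : ℝ) = ((t : ℝ) + 2) ^ (n + 1) * ((ab t (n + 1)).1 : ℝ) := by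
    rw [h1]; push_cast; ring
  have h2' : ((t : ℝ) + 2) * ((pw (t * (t + 2) ^ 3) ((2 * t ^ 2 + 4 * t + 1) * (t + 2))
      (2 * t + 2) (n + 1)).2 : ℝ) = ((t : ℝ) + 2) ^ (n + 1) * ((ab t (n + 1)).2 : ℝ) := by
    exact_mod_cast h2
  have ht : ((t : ℝ) + 2) ≠ 0 := by positivity
  have hq : ((pw (t * (t + 2) ^ 3) ((2 * t ^ 2 + 4 * t + 1) * (t + 2)) (2 * t + 2)
      (n + 1)).2 : ℝ) ≠ 0 := by
    intro h0
    rw [h0, mul_zero] at h2'
    exact (mul_ne_zero (pow_ne_zero _ ht) hb) h2'.symm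
  rw [h1', div_eq_div_iff hq hb]
  linear_combination (-((ab t (n + 1)).1 : ℝ)) * h2'

/-- when the iterate is Pellian -/
theorem pell_iff (hRG : SpecRG) (t n : ℕ) (ht : 3 ≤ t) :
    IsPellian (t * (t + 2) ^ 3)
      (((((t : ℝ) + 2) * ((ab t (n + 1)).1 : ℝ) / ((ab t (n + 1)).2 : ℝ) : ℝ)) : OnePoint ℝ) ↔
    t + 2 ∣ (ab t (n + 1)).2 := by
  obtain ⟨a, ha⟩ : ∃ a, a = (ab t (n + 1)).1 := ⟨_, rfl⟩
  obtain ⟨b, hb⟩ : ∃ b, b = (ab t (n + 1)).2 := ⟨_, rfl⟩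
  have hnorm := ab_norm t (n + 1)
  have hcop := ab_coprime t (n + 1)
  have ha0 := ab_pos t (n + 1)
  have hb0 := ab_pos' t n
  rw [← ha, ← hb] at *
  clear ha hb
  obtain ⟨g, hg⟩ : ∃ g, g = Nat.gcd (t + 2) b := ⟨_, rfl⟩
  have hg0 : 0 < g := by rw [hg]; exact Nat.gcd_pos_of_pos_right _ hb0
  obtain ⟨m, hm⟩ : g ∣ t + 2 := by rw [hg]; exact Nat.gcd_dvd_left _ _
  obtain ⟨c, hc⟩ : g ∣ b := by rw [hg]; exact Nat.gcd_dvd_right _ _
  have hmc : Nat.Coprime m c := by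
    have h1 : g * Nat.gcd m c = g * 1 := by
      rw [← Nat.gcd_mul_left, ← hm, ← hc, ← hg, mul_one]
    exact Nat.eq_of_mul_eq_mul_left hg0 h1
  have hm0 : 0 < m := by
    rcases Nat.eq_zero_or_pos m with h | h
    · rw [h, mul_zero] at hm; omega
    · exact h
  have hc0 : 0 < c := by
    rcases Nat.eq_zero_or_pos c with h | h
    · rw [h, mul_zero] at hc; omega
    · exact h
  have hac : Nat.Coprime a c := Nat.Coprime.coprime_dvd_right ⟨g, by rw [hc, mul_comm]⟩ hcop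
  have hval : (((t : ℝ) + 2) * (a : ℝ) / (b : ℝ) : ℝ) = (((a * m : ℕ) : ℝ) / (c : ℝ) : ℝ) := by
    have h1 : ((t : ℝ) + 2) = (g : ℝ) * (m : ℝ) := by exact_mod_cast hm
    have h2 : (b : ℝ) = (g : ℝ) * (c : ℝ) := by exact_mod_cast hc
    have h3 : (g : ℝ) ≠ 0 := by positivity
    have h4 : (c : ℝ) ≠ 0 := by positivity
    rw [h1, h2]
    push_cast
    field_simp
  have hn : nm (t * (t + 2) ^ 3) ((a * m : ℕ) : ℤ) (c : ℤ) = (m : ℤ) ^ 2 := by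
    have h1 : ((t : ℤ) + 2) = (g : ℤ) * (m : ℤ) := by exact_mod_cast hm
    have h2 : (b : ℤ) = (g : ℤ) * (c : ℤ) := by exact_mod_cast hc
    simp only [nm]
    push_cast
    have h3 : (t : ℤ) * ((t : ℤ) + 2) ^ 3 * (c : ℤ) ^ 2 =
        (m : ℤ) ^ 2 * ((t : ℤ) * ((t : ℤ) + 2) * (b : ℤ) ^ 2) := by
      have h4 : ((t : ℤ) + 2) * (c : ℤ) = (m : ℤ) * (b : ℤ) := by rw [h1, h2]; ring
      calc (t : ℤ) * ((t : ℤ) + 2) ^ 3 * (c : ℤ) ^ 2
          = (t : ℤ) * ((t : ℤ) + 2) * (((t : ℤ) + 2) * (c : ℤ)) ^ 2 := by ring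
        _ = _ := by rw [h4]; ring
    rw [h3]
    linear_combination ((m : ℤ) ^ 2) * hnorm
  have hRG' := (hRG (t * (t + 2) ^ 3) (a * m) c (not_square t ht) (Nat.mul_pos ha0 hm0) hc0
    (Nat.Coprime.mul_left hac hmc)).2
  rw [hval]
  have h5 : (((((a * m : ℕ) : ℝ) / (c : ℝ) : ℝ)) : OnePoint ℝ) =
      ((((a * m : ℕ) : ℝ) / ((c : ℕ) : ℝ) : ℝ) : OnePoint ℝ) := rfl
  rw [h5, hRG', hn]
  have h6 : ((m : ℤ) ^ 2).natAbs = m ^ 2 := by
    rw [Int.natAbs_pow, Int.natAbs_natCast]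
  rw [h6]
  constructor
  · intro h
    have h7 : m = 1 := by
      have := Nat.pow_eq_one.1 h
      omega
    rw [h7, mul_one] at hm
    exact ⟨c, by rw [hm, ← hc]⟩
  · rintro ⟨e, he⟩
    have h7 : m ∣ c := by
      have h8 : g * c = g * (m * e) := by rw [← hc, he, hm]; ring
      exact ⟨e, Nat.eq_of_mul_eq_mul_left hg0 h8⟩
    have h8 : m = 1 := Nat.Coprime.eq_one_of_dvd hmc h7
    rw [h8, one_pow]

theorem ab_mono (t : ℕ) : Monotone fun n => (ab t n).1 := by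
  refine monotone_nat_of_le_succ fun n => ?_
  simp only [ab]
  nlinarith [ab_pos t n, Nat.zero_le ((2 * t + 2) * (t * (t + 2)) * (ab t n).2),
    Nat.zero_le ((2 * t ^ 2 + 4 * t) * (ab t n).1)]

theorem main (hITR : SpecITR) (hRG : SpecRG) (hCF : SpecCF) (hLEG : SpecLEG) (w t : ℕ)
    (ht : 3 ≤ t) (hw : t + 1 = 2 * w) :
    IsFirstIter (t * (t + 2) ^ 3)
      ((((2 * t ^ 2 + 4 * t + 1) * (t + 2) : ℕ) : ℚ) / ((2 * t + 2 : ℕ) : ℚ)) (t + 2) ∧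
    ∃ j, IsFirstConv (t * (t + 2) ^ 3) j ∧
      (f (t * (t + 2) ^ 3)
        ((((2 * t ^ 2 + 4 * t + 1) * (t + 2) : ℕ) : ℚ) / ((2 * t + 2 : ℕ) : ℚ)))^[t + 2] ∞ ≠
        (((conv (t * (t + 2) ^ 3) j : ℝ)) : OnePoint ℝ) := by
  have hk0 : 0 < t * (t + 2) ^ 3 := by positivity
  have hk : ¬ IsSquare (t * (t + 2) ^ 3) := not_square t ht
  have hodd : t % 2 = 1 := by omega
  have hiter : ∀ n, (f (t * (t + 2) ^ 3)
      ((((2 * t ^ 2 + 4 * t + 1) * (t + 2) : ℕ) : ℚ) / ((2 * t + 2 : ℕ) : ℚ)))^[n + 1] ∞ =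
      (((((t : ℝ) + 2) * ((ab t (n + 1)).1 : ℝ) / ((ab t (n + 1)).2 : ℝ) : ℝ)) :
        OnePoint ℝ) := by
    intro n
    have h1 := (hITR (t * (t + 2) ^ 3) ((2 * t ^ 2 + 4 * t + 1) * (t + 2)) (2 * t + 2) n hk0
      (by positivity) (by positivity)).2.2
    rw [h1, value]
  have hpell : ∀ n, IsPellian (t * (t + 2) ^ 3) ((f (t * (t + 2) ^ 3)
      ((((2 * t ^ 2 + 4 * t + 1) * (t + 2) : ℕ) : ℚ) / ((2 * t + 2 : ℕ) : ℚ)))^[n + 1] ∞) ↔
      t + 2 ∣ n + 1 := by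
    intro n
    rw [hiter, pell_iff hRG t n ht, ab_dvd_iff t (n + 1) hodd]
  refine ⟨⟨by omega, (hpell (t + 1)).2 (dvd_refl _), ?_⟩, ?_⟩
  · intro m hm1 hm2 hP
    obtain ⟨n, rfl⟩ : ∃ n, m = n + 1 := ⟨m - 1, by omega⟩
    exact absurd (Nat.le_of_dvd (by omega) ((hpell n).1 hP)) (by omega)
  -- the element `θ^(2w+1)`
  obtain ⟨C, hC⟩ : ∃ C, C = (t + 1) * (ab t w).1 + t * (t + 2) * (ab t w).2 := ⟨_, rfl⟩
  obtain ⟨E, hE⟩ : ∃ E, E = (ab t w).1 + (t + 1) * (ab t w).2 := ⟨_, rfl⟩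
  have hnormw := ab_norm t w
  have hCE : (C : ℤ) ^ 2 - (t * (t + 2)) * (E : ℤ) ^ 2 = 1 := by
    rw [hC, hE]; push_cast; linear_combination hnormw
  have hEd : t + 2 ∣ E := by
    obtain ⟨⟨u, hu⟩, ⟨v, hv⟩⟩ := ab_mod t w
    have h1 : ((t : ℤ) + 2) ∣ (E : ℤ) := by
      refine ⟨u - v + (ab t w).2 + 1, ?_⟩
      have hw' : (t : ℤ) + 1 = 2 * w := by exact_mod_cast hw
      rw [hE]; push_cast
      linear_combination hu - hv - hw'
    rw [← Int.natCast_dvd_natCast]; push_cast; exact h1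
  obtain ⟨e, he⟩ := hEd
  have hC0 : 0 < C := by rw [hC]; have := ab_pos t w; positivity
  have hE0 : 0 < E := by rw [hE]; have := ab_pos t w; positivity
  have he0 : 0 < e := by
    rcases Nat.eq_zero_or_pos e with h | h
    · rw [h, mul_zero] at he; omega
    · exact h
  have hnCe : nm (t * (t + 2) ^ 3) (C : ℤ) (e : ℤ) = 1 := by
    have h1 : (E : ℤ) = ((t : ℤ) + 2) * (e : ℤ) := by exact_mod_cast he
    simp only [nm]; push_cast
    rw [h1] at hCE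
    linear_combination hCE
  have hCe : Nat.Coprime C e := by
    rw [← Nat.isCoprime_iff_coprime]
    simp only [nm] at hnCe
    exact ⟨(C : ℤ), -(((t * (t + 2) ^ 3 : ℕ) : ℤ)) * (e : ℤ), by linear_combination hnCe⟩
  have hklarge : 1 < t * (t + 2) ^ 3 := by
    have h1 : 1 ≤ (t + 2) ^ 3 := Nat.one_le_pow _ _ (by omega)
    nlinarith
  obtain ⟨i, hi⟩ := hLEG (t * (t + 2) ^ 3) C e hk hC0 he0 hCe (by
    rw [hnCe, one_pow]; exact_mod_cast hklarge)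
  obtain ⟨p, q, hpq, hpmono, -, -, -, -⟩ := hCF (t * (t + 2) ^ 3) hk
  -- uniqueness of lowest terms
  have huniq : ∀ a b c d : ℕ, 0 < b → 0 < d → Nat.Coprime a b → Nat.Coprime c d →
      (a : ℚ) / (b : ℚ) = (c : ℚ) / (d : ℚ) → a = c := by
    intro a b c d hb hd hab hcd h
    have hb' : (b : ℚ) ≠ 0 := by positivity
    have hd' : (d : ℚ) ≠ 0 := by positivity
    rw [div_eq_div_iff hb' hd'] at h
    have h' : a * d = c * b := by exact_mod_cast h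
    have h1 : a ∣ c := hab.dvd_of_dvd_mul_right ⟨d, h'.symm⟩
    have h2 : c ∣ a := hcd.dvd_of_dvd_mul_right ⟨b, h'⟩
    exact Nat.dvd_antisymm h1 h2
  have hpi : p i = C := by
    obtain ⟨h1, h2, h3, h4⟩ := hpq i
    rw [h4] at hi
    exact huniq _ _ _ _ h2 he0 h3 hCe hi
  -- some convergent is Pellian
  have hex : ∃ i, IsPellian (t * (t + 2) ^ 3) (((conv (t * (t + 2) ^ 3) i : ℝ)) : OnePoint ℝ) := by
    refine ⟨i, ?_⟩
    have h1 : ((conv (t * (t + 2) ^ 3) i : ℚ) : ℝ) = (C : ℝ) / (e : ℝ) := by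
      rw [hi]; push_cast; rfl
    rw [h1]
    refine ((hRG (t * (t + 2) ^ 3) C e hk hC0 he0 hCe).2).2 ?_
    rw [hnCe]; rfl
  classical
  refine ⟨Nat.find hex, ⟨Nat.find_spec hex, fun i' hi' => Nat.find_min hex hi'⟩, ?_⟩
  have hji : Nat.find hex ≤ i := by
    refine Nat.find_min' hex ?_
    have h1 : ((conv (t * (t + 2) ^ 3) i : ℚ) : ℝ) = (C : ℝ) / (e : ℝ) := by
      rw [hi]; push_cast; rfl
    rw [h1]
    refine ((hRG (t * (t + 2) ^ 3) C e hk hC0 he0 hCe).2).2 ?_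
    rw [hnCe]; rfl
  obtain ⟨j, hj⟩ : ∃ j, j = Nat.find hex := ⟨_, rfl⟩
  rw [← hj] at hji ⊢
  intro hEq
  rw [hiter (t + 1)] at hEq
  have hEq' : ((t : ℝ) + 2) * ((ab t (t + 1 + 1)).1 : ℝ) / ((ab t (t + 1 + 1)).2 : ℝ) =
      ((conv (t * (t + 2) ^ 3) j : ℚ) : ℝ) := OnePoint.coe_injective hEq
  obtain ⟨h1, h2, h3, h4⟩ := hpq j
  have hdv : t + 2 ∣ (ab t (t + 1 + 1)).2 := (ab_dvd_iff t (t + 1 + 1) hodd).2 (dvd_refl _)
  obtain ⟨c, hc⟩ := hdv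
  have hb0 := ab_pos' t (t + 1)
  have hc0 : 0 < c := by
    rcases Nat.eq_zero_or_pos c with h | h
    · rw [h, mul_zero] at hc; omega
    · exact h
  have hac : Nat.Coprime (ab t (t + 1 + 1)).1 c :=
    Nat.Coprime.coprime_dvd_right ⟨t + 2, by rw [hc, mul_comm]⟩ (ab_coprime t (t + 1 + 1))
  have h5 : ((ab t (t + 1 + 1)).1 : ℚ) / (c : ℚ) = (p j : ℚ) / (q j : ℚ) := by
    have h6 : ((ab t (t + 1 + 1)).1 : ℝ) / (c : ℝ) = (p j : ℝ) / (q j : ℝ) := by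
      rw [h4] at hEq'
      have h7 : ((ab t (t + 1 + 1)).2 : ℝ) = ((t : ℝ) + 2) * (c : ℝ) := by exact_mod_cast hc
      rw [h7] at hEq'
      have h8 : ((t : ℝ) + 2) ≠ 0 := by positivity
      rw [mul_div_mul_left _ _ h8] at hEq'
      rw [hEq']; push_cast; rfl
    apply Rat.cast_injective (α := ℝ)
    push_cast
    exact h6
  have h9 : (ab t (t + 1 + 1)).1 = p j := huniq _ _ _ _ hc0 h2 hac h3 h5
  have h10 : p j ≤ C := by rw [← hpi]; exact hpmono.monotone hji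
  have h11 : C < (ab t (w + 1)).1 := by
    simp only [ab]
    rw [hC]
    have := ab_pos t w
    have h12 : t * (t + 2) * (ab t w).2 ≤ (2 * t + 2) * (t * (t + 2)) * (ab t w).2 := by
      refine Nat.mul_le_mul_right _ ?_
      exact Nat.le_mul_of_pos_left _ (by omega)
    have h13 : (t + 1) * (ab t w).1 < (2 * t ^ 2 + 4 * t + 1) * (ab t w).1 := by
      refine Nat.mul_lt_mul_of_pos_right ?_ this
      nlinarith
    omega
  have h14 : (ab t (w + 1)).1 ≤ (ab t (t + 1 + 1)).1 := ab_mono t (by omega)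
  omega

end FCM

theorem specFC (hITR : SpecITR) (hRG : SpecRG) (hCF : SpecCF) (hLEG : SpecLEG) : SpecFC := by
  intro w hw
  obtain ⟨t, ht⟩ : ∃ t, t + 1 = 2 * w := ⟨2 * w - 1, by omega⟩
  have h1 : 2 * w - 1 = t := by omega
  have h2 : 2 * w + 1 = t + 2 := by omega
  have h3 : 8 * w ^ 2 - 1 = 2 * t ^ 2 + 4 * t + 1 := by
    have : 8 * w ^ 2 = 2 * (2 * w) ^ 2 := by ring
    rw [this, ← ht]
    have : 2 * (t + 1) ^ 2 = 2 * t ^ 2 + 4 * t + 1 + 1 := by ring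
    omega
  have h4 : 4 * w = 2 * t + 2 := by omega
  have := FCM.main hITR hRG hCF hLEG w t (by omega) ht
  rw [h1, h2, h3, h4]
  exact this

end Pool.Agent.Lib.MP_c624c9_nt.EX
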