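import Pool.Agent.Lib.MP_c624c9_nt.EX.Spec

/-!
# EX: the first four convergents of the family (helper85; the lemma `step` is by helper93)
-/

set_option autoImplicit false

namespace Pool.Agent.Lib.MP_c624c9_nt.EX

namespace FamConvM

theorem step {s : ℝ} {K : ℤ} (hs : s ^ 2 = K) (P Q P' Q' a : ℤ) (hQ0 : 0 < Q)
    (hQ' : 0 < Q') (hQ : Q * Q' = K - P' ^ 2) (hP : P' = a * Q - P)
    (h1 : (a : ℝ) * Q ≤ P + s) (h2 : (P : ℝ) + s < (a + 1) * Q) (n : ℕ) :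
    ((P + s) / Q : ℝ).convergent 0 = a ∧
    ((P + s) / Q : ℝ).convergent (n + 1) = a + (((P' + s) / Q' : ℝ).convergent n)⁻¹ := by
  have hQR : (0 : ℝ) < Q := by exact_mod_cast hQ0
  have hQR' : (0 : ℝ) < Q' := by exact_mod_cast hQ'
  have hfl : ⌊((P + s) / Q : ℝ)⌋ = a := by
    rw [Int.floor_eq_iff]
    exact ⟨by rw [le_div_iff₀ hQR]; exact h1, by rw [div_lt_iff₀ hQR]; exact h2⟩
  have hQe : (Q : ℝ) * Q' = K - (P' : ℝ) ^ 2 := by exact_mod_cast hQ
  have hPe : (P' : ℝ) = a * Q - P := by exact_mod_cast hP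
  refine ⟨by rw [Real.convergent_zero, hfl], ?_⟩
  rw [Real.convergent_succ, hfl]
  have hfr : (Int.fract ((P + s) / Q : ℝ))⁻¹ = (P' + s) / Q' := by
    rw [Int.fract, hfl]
    have e1 : ((P + s) / Q : ℝ) - a = (s - P') / Q := by
      rw [hPe]; field_simp; ring
    have hprod : (s - P') * (s + P') = Q * Q' := by
      rw [hQe]; linear_combination hs
    have hne : s - P' ≠ 0 := by
      intro h0
      rw [h0, zero_mul] at hprod
      have := mul_pos hQR hQR'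
      linarith
    rw [e1, inv_div, div_eq_div_iff hne hQR'.ne']
    linear_combination -hprod
  rw [hfr]

end FamConvM

open FamConvM in
theorem famConv : SpecFA := by
  intro w hw
  have hW : (2 : ℤ) ≤ (w : ℤ) := by exact_mod_cast hw
  have hwR : (2 : ℝ) ≤ (w : ℝ) := by exact_mod_cast hw
  set W : ℤ := (w : ℤ) with hWdef
  have hWR : ((W : ℤ) : ℝ) = (w : ℝ) := by rw [hWdef]; push_cast; rfl
  set K : ℤ := (2 * W - 1) * (2 * W + 1) ^ 3 with hK
  have hKR : ((((2 * w - 1) * (2 * w + 1) ^ 3 : ℕ)) : ℝ) = (K : ℝ) := by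
    rw [hK]
    push_cast [Nat.cast_sub (by omega : 1 ≤ 2 * w)]
    rw [hWR]
  set s : ℝ := Real.sqrt ((((2 * w - 1) * (2 * w + 1) ^ 3 : ℕ)) : ℝ) with hsdef
  have hKe : (K : ℝ) = (2 * (w : ℝ) - 1) * (2 * w + 1) ^ 3 := by
    rw [hK]; push_cast; rw [hWR]
  have hs : s ^ 2 = K := by
    rw [hsdef, hKR]
    apply Real.sq_sqrt
    rw [hKe]
    have : (0 : ℝ) ≤ 2 * (w : ℝ) - 1 := by linarith
    positivity
  have hlow : 4 * (w : ℝ) ^ 2 + 2 * w - 1 < s := by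
    rw [hsdef, hKR, hKe]
    apply Real.lt_sqrt_of_sq_lt
    nlinarith
  have hup : s < 4 * (w : ℝ) ^ 2 + 2 * w := by
    rw [hsdef, hKR, hKe, Real.sqrt_lt' (by positivity)]
    nlinarith
  have st0 := fun n => step hs 0 1 (4 * W ^ 2 + 2 * W - 1) (4 * W ^ 2 - 2) (4 * W ^ 2 + 2 * W - 1)
    (by norm_num) (by nlinarith) (by rw [hK]; ring) (by ring)
    (by push_cast; rw [hWR]; linarith) (by push_cast; rw [hWR]; linarith) n
  have st1 := fun n => step hs (4 * W ^ 2 + 2 * W - 1) (4 * W ^ 2 - 2) (4 * W ^ 2 - 2 * W - 3)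
    (8 * W + 5) 2 (by nlinarith) (by linarith) (by rw [hK]; ring) (by ring)
    (by push_cast; rw [hWR]; nlinarith) (by push_cast; rw [hWR]; nlinarith) n
  have st2 := fun n => step hs (4 * W ^ 2 - 2 * W - 3) (8 * W + 5) (4 * W ^ 2 - W - 2)
    (3 * W ^ 2 - 1) (W - 1) (by linarith) (by nlinarith) (by rw [hK]; ring) (by ring)
    (by push_cast; rw [hWR]; nlinarith) (by push_cast; rw [hWR]; nlinarith) n
  have st3 := fun n => step hs (4 * W ^ 2 - W - 2) (3 * W ^ 2 - 1) (2 * W ^ 2 + W)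
    ((2 * W + 1) ^ 2) 2 (by nlinarith) (by positivity) (by rw [hK]; ring) (by ring)
    (by push_cast; rw [hWR]; nlinarith) (by push_cast; rw [hWR]; nlinarith) n
  have hconv : ∀ i, conv ((2 * w - 1) * (2 * w + 1) ^ 3) i =
      ((((0 : ℤ) : ℝ) + s) / ((1 : ℤ) : ℝ)).convergent i := by
    intro i
    unfold conv
    rw [← hsdef]
    congr 1
    push_cast
    ring
  have hWQ : ((W : ℤ) : ℚ) = (w : ℚ) := by rw [hWdef]; push_cast; rfl
  have hwQ : (2 : ℚ) ≤ (w : ℚ) := by exact_mod_cast hw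
  have n1 : (w : ℚ) - 1 ≠ 0 := by
    have : (0 : ℚ) < (w : ℚ) - 1 := by linarith
    exact this.ne'
  have n2 : 2 * (w : ℚ) - 1 ≠ 0 := by
    have : (0 : ℚ) < 2 * (w : ℚ) - 1 := by linarith
    exact this.ne'
  have n3 : (w : ℚ) ≠ 0 := by
    have : (0 : ℚ) < (w : ℚ) := by linarith
    exact this.ne'
  refine ⟨?_, ?_, ?_, ?_⟩
  · rw [hconv, (st0 0).1]
    push_cast
    rw [hWQ]
  · rw [hconv, (st0 0).2, (st1 0).1]
    push_cast
    rw [hWQ]
    ring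
  · rw [hconv, (st0 1).2, (st1 0).2, (st2 0).1]
    push_cast
    rw [hWQ]
    have e : (2 : ℚ) + ((w : ℚ) - 1)⁻¹ = (2 * w - 1) / (w - 1) := by
      rw [eq_div_iff n1, add_mul, inv_mul_cancel₀ n1]; ring
    rw [e, inv_div, eq_div_iff n2, add_mul, div_mul_cancel₀ _ n2]
    ring
  · rw [hconv, (st0 2).2, (st1 1).2, (st2 0).2, (st3 0).1]
    push_cast
    rw [hWQ]
    have e : ((w : ℚ) - 1 + (2 : ℚ)⁻¹)⁻¹ = 2 / (2 * w - 1) := by
      rw [show (w : ℚ) - 1 + (2 : ℚ)⁻¹ = (2 * w - 1) / 2 by ring, inv_div]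
    rw [e]
    have e2 : (2 : ℚ) + 2 / (2 * w - 1) = 4 * w / (2 * w - 1) := by
      rw [eq_div_iff n2, add_mul, div_mul_cancel₀ _ n2]; ring
    have n4 : 4 * (w : ℚ) ≠ 0 := mul_ne_zero (by norm_num) n3
    rw [e2, inv_div, eq_div_iff n4, add_mul, div_mul_cancel₀ _ n4]
    ring

end Pool.Agent.Lib.MP_c624c9_nt.EX
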