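import Pool.Agent.Lib.MP_c624c9_nt.EX.Spec

/-!
# GRP: the elements with integral `4 x^2 / N` are closed under products
-/

set_option autoImplicit false

namespace Pool.Agent.Lib.MP_c624c9_nt.EX

namespace GRPM

/-- `N (t - 2) = 2 (x^2 + k y^2)` gives `N^2 ((t-2)^2 - 4) = 16 k x^2 y^2`. -/
theorem sq_eq (k x y N t : ℤ) (hN : N = x ^ 2 - k * y ^ 2) (ht : 4 * x ^ 2 = N * t) :
    16 * k * x ^ 2 * y ^ 2 = N ^ 2 * ((t - 2) ^ 2 - 4) := by
  have h1 : N * (t - 2) = 2 * (x ^ 2 + k * y ^ 2) := by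
    have : N * (t - 2) = N * t - 2 * N := by ring
    rw [this, ← ht, hN]; ring
  have h2 : N ^ 2 * ((t - 2) ^ 2 - 4) = (N * (t - 2)) ^ 2 - 4 * N ^ 2 := by ring
  rw [h2, h1, hN]; ring

end GRPM

theorem specGRP : SpecGRP := by
  rintro k x y x' y' hN hN' ⟨t, ht⟩ ⟨t', ht'⟩
  have hs := GRPM.sq_eq k x y _ t rfl ht
  have hs' := GRPM.sq_eq k x' y' _ t' rfl ht'
  change nm k x y ≠ 0 at hN
  change nm k x' y' ≠ 0 at hN'
  change 16 * (k : ℤ) * x ^ 2 * y ^ 2 = (nm k x y) ^ 2 * _ at hs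
  change 16 * (k : ℤ) * x' ^ 2 * y' ^ 2 = (nm k x' y') ^ 2 * _ at hs'
  have hsq : (16 * (k : ℤ) * x * y * x' * y') ^ 2 =
      (nm k x y * nm k x' y') ^ 2 * (((t - 2) ^ 2 - 4) * ((t' - 2) ^ 2 - 4)) := by
    have e1 : (16 * (k : ℤ) * x * y * x' * y') ^ 2 =
      (16 * (k : ℤ) * x ^ 2 * y ^ 2) * (16 * (k : ℤ) * x' ^ 2 * y' ^ 2) := by ring
    rw [e1, hs, hs']; ring
  have h1 : nm k x y * nm k x' y' ∣ 16 * (k : ℤ) * x * y * x' * y' :=
    (Int.pow_dvd_pow_iff two_ne_zero).1 ⟨_, hsq⟩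
  obtain ⟨W, hW⟩ := h1
  have hNN : nm k x y * nm k x' y' ≠ 0 := mul_ne_zero hN hN'
  have hW2 : W ^ 2 = ((t - 2) ^ 2 - 4) * ((t' - 2) ^ 2 - 4) := by
    rw [hW, mul_pow] at hsq
    exact mul_left_cancel₀ (pow_ne_zero 2 hNN) hsq
  have hpar : Even ((t - 2) * (t' - 2) + W) := by
    have hz : (2 : ℤ) ∣ ((t - 2) * (t' - 2) + W) ^ 2 := by
      refine ⟨-2 * (t - 2) ^ 2 - 2 * (t' - 2) ^ 2 + 8 + (t - 2) ^ 2 * (t' - 2) ^ 2 +
        (t - 2) * (t' - 2) * W, ?_⟩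
      linear_combination hW2
    exact even_iff_two_dvd.2 (Int.prime_two.dvd_of_dvd_pow hz)
  obtain ⟨u, hu⟩ := hpar
  refine ⟨u + 2, ?_⟩
  have hnm : nm k (x * x' + k * y * y') (x * y' + y * x') = nm k x y * nm k x' y' := by
    unfold nm; ring
  have hT : nm k x y * (t - 2) = 2 * (x ^ 2 + k * y ^ 2) := by
    have : nm k x y * (t - 2) = nm k x y * t - 2 * nm k x y := by ring
    rw [this, ← ht]; unfold nm; ring
  have hT' : nm k x' y' * (t' - 2) = 2 * (x' ^ 2 + k * y' ^ 2) := by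
    have : nm k x' y' * (t' - 2) = nm k x' y' * t' - 2 * nm k x' y' := by ring
    rw [this, ← ht']; unfold nm; ring
  have hkey : 2 * (nm k x y * nm k x' y' * u) =
      4 * (x ^ 2 + k * y ^ 2) * (x' ^ 2 + k * y' ^ 2) + 16 * k * x * y * x' * y' := by
    have e2 : 2 * (nm k x y * nm k x' y' * u) =
        (nm k x y * (t - 2)) * (nm k x' y' * (t' - 2)) + nm k x y * nm k x' y' * W := by
      linear_combination (-(nm k x y * nm k x' y')) * hu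
    rw [e2, hT, hT', ← hW]; ring
  rw [hnm]
  have h3 : nm k x y * nm k x' y' * (u + 2) =
      nm k x y * nm k x' y' * u + 2 * (nm k x y * nm k x' y') := by ring
  rw [h3]
  have h4 : nm k x y * nm k x' y' = (x ^ 2 - k * y ^ 2) * (x' ^ 2 - k * y' ^ 2) := rfl
  have h5 : nm k x y * nm k x' y' * u =
      2 * (x ^ 2 + k * y ^ 2) * (x' ^ 2 + k * y' ^ 2) + 8 * k * x * y * x' * y' := by
    linarith
  rw [h5, h4]; ring

end Pool.Agent.Lib.MP_c624c9_nt.EX
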