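import Pool.Agent.Lib.MP_c624c9_nt.EX.Spec

/-!
# EX, module ITR (helper10): the iterates of infinity
-/

set_option autoImplicit false

open OnePoint

namespace Pool.Agent.Lib.MP_c624c9_nt.EX

theorem specITR : SpecITR := by
  intro k x y n hk hx hy
  induction n with
  | zero =>
    have h1 : pw k x y (0 + 1) = (x, y) := by
      simp [pw]
    rw [h1]
    refine ⟨hx, hy, ?_⟩
    rw [zero_add, Function.iterate_one]
    show (((((x : ℚ) / (y : ℚ) : ℚ) : ℝ)) : OnePoint ℝ) = _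
    push_cast
    rfl
  | succ n ih =>
    obtain ⟨h1, h2, h3⟩ := ih
    have e : pw k x y (n + 1 + 1) = (x * (pw k x y (n + 1)).1 + k * y * (pw k x y (n + 1)).2,
      y * (pw k x y (n + 1)).1 + x * (pw k x y (n + 1)).2) := rfl
    set X := (pw k x y (n + 1)).1 with hX
    set Y := (pw k x y (n + 1)).2 with hY
    rw [e]
    refine ⟨Nat.add_pos_left (Nat.mul_pos hx h1) _, Nat.add_pos_left (Nat.mul_pos hy h1) _, ?_⟩
    rw [Function.iterate_succ_apply', h3]
    have hx' : (0 : ℝ) < x := by exact_mod_cast hx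
    have hy' : (0 : ℝ) < y := by exact_mod_cast hy
    have hX' : (0 : ℝ) < X := by exact_mod_cast h1
    have hY' : (0 : ℝ) < Y := by exact_mod_cast h2
    have hne : (X : ℝ) / (Y : ℝ) + (((x : ℚ) / (y : ℚ) : ℚ) : ℝ) ≠ 0 := by
      push_cast
      positivity
    show (if (X : ℝ) / (Y : ℝ) + (((x : ℚ) / (y : ℚ) : ℚ) : ℝ) = 0 then (∞ : OnePoint ℝ) else
      (((((((x : ℚ) / (y : ℚ) : ℚ) : ℝ)) * ((X : ℝ) / (Y : ℝ)) + k) /
        ((X : ℝ) / (Y : ℝ) + (((x : ℚ) / (y : ℚ) : ℚ) : ℝ)) : ℝ) : OnePoint ℝ)) = _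
    rw [if_neg hne]
    congr 1
    push_cast
    have hden : (y : ℝ) * X + x * Y ≠ 0 := by positivity
    field_simp

end Pool.Agent.Lib.MP_c624c9_nt.EX
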