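import Pool.Agent.Lib.MP_c624c9_nt.EX.Spec

/-!
# Module LEG
-/

set_option autoImplicit false

namespace Pool.Agent.Lib.MP_c624c9_nt.EX

namespace LEGM

lemma one_lt_sqrt {k : ℕ} (hk : ¬ IsSquare k) : 1 < Real.sqrt (k : ℝ) := by
  have h0 : k ≠ 0 := by
    rintro rfl
    exact hk ⟨0, rfl⟩
  have h1 : k ≠ 1 := by
    rintro rfl
    exact hk ⟨1, rfl⟩
  have h2 : (1 : ℝ) < k := by
    have : 1 < k := by omega
    exact_mod_cast this
  rw [← Real.sqrt_one]
  exact Real.sqrt_lt_sqrt (by norm_num) h2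

lemma den_eq {a b : ℕ} (hb : 0 < b) (h : Nat.Coprime a b) : ((a : ℚ) / (b : ℚ)).den = b := by
  have h1 := Rat.den_div_eq_of_coprime (a := (a : ℤ)) (b := (b : ℤ)) (by exact_mod_cast hb)
    (by simpa using h)
  rw [Int.cast_natCast, Int.cast_natCast] at h1
  exact_mod_cast h1

end LEGM

open LEGM

theorem specLEG : SpecLEG := by
  intro k x y hk hx hy hxy hN
  set r := Real.sqrt (k : ℝ) with hr
  have hr1 : 1 < r := one_lt_sqrt hk
  have hr0 : 0 < r := by linarith
  have hrk : r ^ 2 = k := Real.sq_sqrt (Nat.cast_nonneg k)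
  have hxr : (0 : ℝ) < x := by exact_mod_cast hx
  have hyr : (0 : ℝ) < y := by exact_mod_cast hy
  have hNr : ((x : ℝ) ^ 2 - k * (y : ℝ) ^ 2) ^ 2 < k := by
    have h : (nm k x y : ℝ) ^ 2 < (k : ℝ) := by exact_mod_cast hN
    have e : (nm k x y : ℝ) = (x : ℝ) ^ 2 - k * (y : ℝ) ^ 2 := by
      unfold nm
      push_cast
      ring
    rwa [e] at h
  have hNabs : |(x : ℝ) ^ 2 - k * (y : ℝ) ^ 2| < r := by
    rw [← hrk] at hNr
    have := abs_lt_of_sq_lt_sq hNr hr0.le
    rw [← hrk]
    exact this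
  have hfac : (x : ℝ) ^ 2 - k * (y : ℝ) ^ 2 = (x - y * r) * (x + y * r) := by
    rw [← hrk]
    ring
  have hsum : 0 < (x : ℝ) + y * r := by positivity
  rcases lt_or_ge ((y : ℝ) * r) x with hlt | hge
  · -- positive norm
    have hden : ((x : ℚ) / (y : ℚ)).den = y := by
      exact den_eq hy hxy
    have h1 : |r - (((x : ℚ) / (y : ℚ) : ℚ) : ℝ)| < 1 / (2 * (((x : ℚ) / (y : ℚ)).den : ℝ) ^ 2) := by
      rw [hden]
      push_cast
      have e : r - (x : ℝ) / y = -((x - y * r) / y) := by
        field_simp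
        ring
      rw [e, abs_neg, abs_of_pos (by apply div_pos _ hyr; linarith)]
      rw [div_lt_div_iff₀ hyr (by positivity)]
      have h2 : (x - y * r) * (x + y * r) < r := by
        rw [← hfac]
        exact (abs_lt.mp hNabs).2
      have h3 : (x - y * r) * (2 * y) < 1 := by
        by_contra hcon
        push Not at hcon
        have h4 : (x - y * r) * (x + y * r) ≥ (x - y * r) * (2 * y * r) := by
          apply mul_le_mul_of_nonneg_left _ (by linarith)
          linarith
        have h5 : (x - y * r) * (2 * y * r) = ((x - y * r) * (2 * y)) * r := by ring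
        nlinarith
      nlinarith
    obtain ⟨n, hn⟩ := Real.exists_rat_eq_convergent h1
    exact ⟨n, hn.symm⟩
  · -- negative norm
    have hne : (x : ℝ) ≠ y * r := by
      intro h
      apply hk
      have h2 : (x : ℝ) ^ 2 = k * (y : ℝ) ^ 2 := by
        rw [h, ← hrk]
        ring
      have h3 : x ^ 2 = k * y ^ 2 := by exact_mod_cast h2
      have h4 : y ^ 2 ∣ x ^ 2 := ⟨k, by rw [h3]; ring⟩
      have h5 : y ∣ x := (Nat.pow_dvd_pow_iff (by norm_num)).mp h4
      obtain ⟨m, hm⟩ := h5
      refine ⟨m, ?_⟩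
      have h6 : y ^ 2 * k = y ^ 2 * (m * m) := by
        rw [mul_comm, ← h3, hm]
        ring
      exact Nat.eq_of_mul_eq_mul_left (by positivity) h6
    have hlt : (x : ℝ) < y * r := lt_of_le_of_ne hge hne
    have hden : ((y : ℚ) / (x : ℚ)).den = x := by
      exact den_eq hx hxy.symm
    have h1 : |r⁻¹ - (((y : ℚ) / (x : ℚ) : ℚ) : ℝ)| <
        1 / (2 * (((y : ℚ) / (x : ℚ)).den : ℝ) ^ 2) := by
      rw [hden]
      push_cast
      have e : r⁻¹ - (y : ℝ) / x = -((y * r - x) / (x * r)) := by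
        field_simp
        ring
      rw [e, abs_neg, abs_of_pos (by apply div_pos _ (by positivity); linarith)]
      rw [div_lt_div_iff₀ (by positivity) (by positivity)]
      have h2 : (y * r - x) * (x + y * r) < r := by
        have := (abs_lt.mp hNabs).1
        rw [hfac] at this
        nlinarith
      have h3 : (y * r - x) * (2 * x) < r := by
        have h4 : (y * r - x) * (2 * x) ≤ (y * r - x) * (x + y * r) := by
          apply mul_le_mul_of_nonneg_left _ (by linarith)
          linarith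
        linarith
      nlinarith
    obtain ⟨n, hn⟩ := Real.exists_rat_eq_convergent h1
    have hinv : r⁻¹ < 1 := inv_lt_one_of_one_lt₀ hr1
    have hinv0 : 0 < r⁻¹ := inv_pos.mpr hr0
    have hfl : ⌊r⁻¹⌋ = 0 := Int.floor_eq_zero_iff.mpr ⟨hinv0.le, hinv⟩
    rcases n with _ | n
    · exfalso
      rw [Real.convergent_zero, hfl] at hn
      have h2 : (0 : ℚ) < (y : ℚ) / (x : ℚ) := by
        have : (0 : ℚ) < y := by exact_mod_cast hy
        have : (0 : ℚ) < x := by exact_mod_cast hx
        positivity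
      rw [hn] at h2
      simp at h2
    · rw [Real.convergent_succ, hfl, Int.fract, hfl] at hn
      simp only [Int.cast_zero, sub_zero, inv_inv, zero_add] at hn
      refine ⟨n, ?_⟩
      show r.convergent n = _
      rw [← inv_inv (r.convergent n), ← hn, inv_div]

end Pool.Agent.Lib.MP_c624c9_nt.EX
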