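import Pool.Agent.Lib.MP_c624c9_nt.EX.Spec

/-!
# EX: module MAIN (helper85)
-/

set_option autoImplicit false

open OnePoint

namespace Pool.Agent.Lib.MP_c624c9_nt.EX

namespace MAINM

theorem two_le {k : ℕ} (hk : ¬ IsSquare k) : 2 ≤ k := by
  by_contra h
  have h01 : k = 0 ∨ k = 1 := by omega
  rcases h01 with h | h
  · exact hk ⟨0, by simp [h]⟩
  · exact hk ⟨1, by simp [h]⟩

theorem sqk (k : ℕ) : Real.sqrt k * Real.sqrt k = k := Real.mul_self_sqrt (Nat.cast_nonneg k)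

theorem nm_cast (k : ℕ) (x y : ℤ) :
    ((nm k x y : ℤ) : ℝ) = ((x : ℝ) + y * Real.sqrt k) * ((x : ℝ) - y * Real.sqrt k) := by
  unfold nm
  push_cast
  linear_combination (y : ℝ) ^ 2 * sqk k

theorem nm_ne {k : ℕ} (hk : ¬ IsSquare k) {x y : ℤ} (h : x ≠ 0 ∨ y ≠ 0) : nm k x y ≠ 0 := by
  intro h0
  unfold nm at h0
  have hy : y ≠ 0 := by
    rintro rfl
    rcases h with h | h
    · apply h
      have h2 : x ^ 2 = 0 := by linarith
      exact pow_eq_zero_iff (two_ne_zero) |>.1 h2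
    · exact h rfl
  apply hk
  rw [← Rat.isSquare_natCast_iff]
  refine ⟨(x : ℚ) / y, ?_⟩
  have hy' : (y : ℚ) ≠ 0 := by exact_mod_cast hy
  have h1 : (x : ℚ) ^ 2 - k * (y : ℚ) ^ 2 = 0 := by exact_mod_cast h0
  field_simp
  linarith

theorem nm_mul (k : ℕ) (a b c d : ℤ) :
    nm k (a * c + k * b * d) (a * d + b * c) = nm k a b * nm k c d := by
  unfold nm; ring

/-- `|α / α'|`. -/
noncomputable def Gr (k : ℕ) (x y : ℕ) : ℝ :=
  ((x : ℝ) + y * Real.sqrt k) ^ 2 / |((nm k x y : ℤ) : ℝ)|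

theorem pw_val (k x y n : ℕ) :
    ((pw k x y n).1 : ℝ) + (pw k x y n).2 * Real.sqrt k = ((x : ℝ) + y * Real.sqrt k) ^ n := by
  induction n with
  | zero => simp [pw]
  | succ n ih =>
    rw [pow_succ, ← ih]
    simp only [pw]
    push_cast
    linear_combination (-(y : ℝ) * ((pw k x y n).2 : ℝ)) * sqk k

theorem pw_nm (k x y n : ℕ) :
    nm k (pw k x y n).1 (pw k x y n).2 = (nm k x y) ^ n := by
  induction n with
  | zero => simp [pw, nm]
  | succ n ih =>
    rw [pow_succ, ← ih]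
    simp only [pw, nm]
    push_cast
    ring

theorem Gr_pow {k x y n c X Y : ℕ} (hc : 0 < c) (h : pw k x y n = (c * X, c * Y)) :
    Gr k X Y = (Gr k x y) ^ n := by
  have h1 := pw_val k x y n
  have h2 := pw_nm k x y n
  rw [h] at h1 h2
  simp only at h1 h2
  have hc' : (0 : ℝ) < c := by exact_mod_cast hc
  have h3 : ((c : ℝ)) ^ 2 * ((nm k X Y : ℤ) : ℝ) = ((nm k x y : ℤ) : ℝ) ^ n := by
    have h4 : (c : ℤ) ^ 2 * nm k X Y = (nm k x y) ^ n := by
      rw [← h2]; unfold nm; push_cast; ring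
    exact_mod_cast h4
  unfold Gr
  rw [div_pow, ← abs_pow, ← h3, abs_mul, abs_of_pos (pow_pos hc' 2), ← pow_mul, mul_comm 2 n,
    pow_mul, ← h1]
  push_cast
  rw [show (c : ℝ) * X + c * Y * Real.sqrt k = c * ((X : ℝ) + Y * Real.sqrt k) by ring, mul_pow,
    mul_div_mul_left _ _ (ne_of_gt (pow_pos hc' 2))]

theorem abs_add_abs_cases (A B : ℝ) : |A| + |B| = |A + B| ∨ |A| + |B| = |A - B| := by
  rcases le_total 0 A with hA | hA <;> rcases le_total 0 B with hB | hB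
  · left; rw [abs_of_nonneg hA, abs_of_nonneg hB, abs_of_nonneg (by linarith)]
  · right; rw [abs_of_nonneg hA, abs_of_nonpos hB, abs_of_nonneg (by linarith)]; ring
  · right; rw [abs_of_nonpos hA, abs_of_nonneg hB, abs_of_nonpos (by linarith)]; ring
  · left; rw [abs_of_nonpos hA, abs_of_nonpos hB, abs_of_nonpos (by linarith)]; ring

theorem sqrt_pos' {k : ℕ} (hk : ¬ IsSquare k) : 0 < Real.sqrt k := by
  apply Real.sqrt_pos.2
  have := two_le hk
  exact_mod_cast (by omega : 0 < k)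

theorem size {k : ℕ} (hk : ¬ IsSquare k) {u v X Y : ℕ} (hu : 0 < u) (hX : 0 < X)
    (huv : nm k u v = 1 ∨ nm k u v = -1) {β M : ℝ} (hβ : 0 < β)
    (hn : |((nm k X Y : ℤ) : ℝ)| ≤ M)
    (h1 : ((u : ℝ) + v * Real.sqrt k) ^ 2 < β * Gr k X Y)
    (h2 : Gr k X Y < β * ((u : ℝ) + v * Real.sqrt k) ^ 2) :
    (|(u : ℝ) * X - k * v * Y| + |(v : ℝ) * X - u * Y| * Real.sqrt k) ^ 2 < M * β := by
  have hr := sqrt_pos' hk
  have hrk := sqk k
  set r := Real.sqrt k with hrdef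
  have hu' : (0 : ℝ) < u := by exact_mod_cast hu
  have hX' : (0 : ℝ) < X := by exact_mod_cast hX
  have hv' : (0 : ℝ) ≤ v := Nat.cast_nonneg v
  have hY' : (0 : ℝ) ≤ Y := Nat.cast_nonneg Y
  have hH : 0 < (u : ℝ) + v * r := by positivity
  have hT : 0 < (X : ℝ) + Y * r := by positivity
  have hnu : (((u : ℝ) + v * r) * ((u : ℝ) - v * r)) ^ 2 = 1 := by
    have := nm_cast k u v
    push_cast at this
    rw [← hrdef] at this
    rw [← this]
    rcases huv with h | h <;> rw [h] <;> norm_num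
  have hnX : ((nm k X Y : ℤ) : ℝ) = ((X : ℝ) + Y * r) * ((X : ℝ) - Y * r) := by
    have := nm_cast k X Y
    push_cast at this
    rw [← hrdef] at this
    exact this
  have hn0 : nm k X Y ≠ 0 := nm_ne hk (Or.inl (by exact_mod_cast hX.ne'))
  have hn0' : ((nm k X Y : ℤ) : ℝ) ≠ 0 := by exact_mod_cast hn0
  have hnpos : 0 < |((nm k X Y : ℤ) : ℝ)| := abs_pos.2 hn0'
  have hT0 : (X : ℝ) - Y * r ≠ 0 := by
    intro h0
    rw [h0, mul_zero] at hnX
    exact hn0' hnX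
  have hG : Gr k X Y * |((nm k X Y : ℤ) : ℝ)| = ((X : ℝ) + Y * r) ^ 2 := by
    unfold Gr
    rw [← hrdef]
    field_simp
  have hG2 : Gr k X Y * ((X : ℝ) - Y * r) ^ 2 = |((nm k X Y : ℤ) : ℝ)| := by
    have h3 : Gr k X Y * ((X : ℝ) - Y * r) ^ 2 * |((nm k X Y : ℤ) : ℝ)| =
        |((nm k X Y : ℤ) : ℝ)| * |((nm k X Y : ℤ) : ℝ)| := by
      rw [abs_mul_abs_self, hnX]
      rw [← hnX]
      calc Gr k X Y * ((X : ℝ) - Y * r) ^ 2 * |((nm k X Y : ℤ) : ℝ)|
          = (Gr k X Y * |((nm k X Y : ℤ) : ℝ)|) * ((X : ℝ) - Y * r) ^ 2 := by ring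
        _ = _ := by rw [hG, hnX]; ring
    exact mul_right_cancel₀ hnpos.ne' h3
  have hB : |(v : ℝ) * X - u * Y| * r = |((v : ℝ) * X - u * Y) * r| := by
    rw [abs_mul, abs_of_pos hr]
  rw [hB]
  rcases abs_add_abs_cases ((u : ℝ) * X - k * v * Y) (((v : ℝ) * X - u * Y) * r) with h | h
  · rw [h, sq_abs]
    have e : (u : ℝ) * X - k * v * Y + ((v : ℝ) * X - u * Y) * r =
        ((u : ℝ) + v * r) * ((X : ℝ) - Y * r) := by
      linear_combination ((v : ℝ) * Y) * hrk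
    rw [e, mul_pow]
    have hT2 : 0 < ((X : ℝ) - Y * r) ^ 2 := by positivity
    calc ((u : ℝ) + v * r) ^ 2 * ((X : ℝ) - Y * r) ^ 2
        < (β * Gr k X Y) * ((X : ℝ) - Y * r) ^ 2 := by
          exact mul_lt_mul_of_pos_right h1 hT2
      _ = β * |((nm k X Y : ℤ) : ℝ)| := by rw [mul_assoc, hG2]
      _ ≤ β * M := by exact mul_le_mul_of_nonneg_left hn hβ.le
      _ = M * β := by ring
  · rw [h, sq_abs]
    have e : (u : ℝ) * X - k * v * Y - ((v : ℝ) * X - u * Y) * r =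
        ((u : ℝ) - v * r) * ((X : ℝ) + Y * r) := by
      linear_combination ((v : ℝ) * Y) * hrk
    rw [e, mul_pow, ← hG]
    have hH2 : 0 < ((u : ℝ) - v * r) ^ 2 := by
      have : (u : ℝ) - v * r ≠ 0 := by
        intro h0
        rw [h0, mul_zero] at hnu
        norm_num at hnu
      positivity
    calc ((u : ℝ) - v * r) ^ 2 * (Gr k X Y * |((nm k X Y : ℤ) : ℝ)|)
        < ((u : ℝ) - v * r) ^ 2 * ((β * ((u : ℝ) + v * r) ^ 2) * |((nm k X Y : ℤ) : ℝ)|) := by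
          apply mul_lt_mul_of_pos_left _ hH2
          exact mul_lt_mul_of_pos_right h2 hnpos
      _ = (((u : ℝ) + v * r) * ((u : ℝ) - v * r)) ^ 2 * (β * |((nm k X Y : ℤ) : ℝ)|) := by ring
      _ = β * |((nm k X Y : ℤ) : ℝ)| := by rw [hnu, one_mul]
      _ ≤ β * M := by exact mul_le_mul_of_nonneg_left hn hβ.le
      _ = M * β := by ring

theorem cop {k u v X Y : ℤ} {e : ℤ} (he : e * e = 1) (huv : u ^ 2 - k * v ^ 2 = e)
    (h : IsCoprime X Y) : IsCoprime (u * X - k * v * Y) (v * X - u * Y) := by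
  obtain ⟨a, b, hab⟩ := h
  refine ⟨e * (a * u + b * v), -e * (a * k * v + b * u), ?_⟩
  linear_combination (e * (a * X + b * Y)) * huv + (e * e) * hab + he

theorem lowest {a b c d : ℕ} (hb : 0 < b) (hd : 0 < d) (hab : Nat.Coprime a b)
    (hcd : Nat.Coprime c d) (h : (a : ℚ) / b = (c : ℚ) / d) : a = c ∧ b = d := by
  have hb' : (b : ℚ) ≠ 0 := by exact_mod_cast hb.ne'
  have hd' : (d : ℚ) ≠ 0 := by exact_mod_cast hd.ne'
  have h1 : a * d = c * b := by
    have : (a : ℚ) * d = c * b := by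
      rw [div_eq_div_iff hb' hd'] at h
      exact h
    exact_mod_cast this
  have h2 : b ∣ d := by
    have : b ∣ a * d := ⟨c, by rw [h1]; ring⟩
    exact (hab.symm).dvd_of_dvd_mul_left this
  have h3 : d ∣ b := by
    have : d ∣ c * b := ⟨a, by rw [← h1]; ring⟩
    exact (hcd.symm).dvd_of_dvd_mul_left this
  have h4 : b = d := Nat.dvd_antisymm h2 h3
  subst h4
  exact ⟨Nat.eq_of_mul_eq_mul_right hb h1, rfl⟩

theorem key {k : ℕ} (hk : ¬ IsSquare k) (leg : SpecLEG) (grp : SpecGRP) (rg : SpecRG)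
    {p q : ℕ → ℕ}
    (hpq : ∀ i, 0 < p i ∧ 0 < q i ∧ Nat.Coprime (p i) (q i) ∧ conv k i = (p i : ℚ) / (q i : ℚ))
    (hp : Monotone p) (hq : Monotone q) {i : ℕ} (hs : IsSeed k i)
    {u v : ℕ} (hu : 0 < u) (huv : nm k u v = 1 ∨ nm k u v = -1)
    {X Y : ℕ} (hX : 0 < X) (hXY : Nat.Coprime X Y)
    (hd : nm k X Y ∣ nm k (p i) (q i)) (hg : nm k X Y ∣ 4 * (X : ℤ) ^ 2)
    (h1 : ((u : ℝ) + v * Real.sqrt k) ^ 2 < Gr k (p i) (q i) * Gr k X Y)
    (h2 : Gr k X Y < Gr k (p i) (q i) * ((u : ℝ) + v * Real.sqrt k) ^ 2)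
    (hz1 : (u : ℤ) * X - k * v * Y ≠ 0) (hz2 : (v : ℤ) * X - u * Y ≠ 0) :
    (k : ℤ) < nm k X Y ^ 2 := by
  by_contra hcon
  have hcon' : nm k X Y ^ 2 ≤ k := not_lt.1 hcon
  have hlt : nm k X Y ^ 2 < k := by
    rcases lt_or_eq_of_le hcon' with h | h
    · exact h
    · exfalso
      apply hk
      refine ⟨(nm k X Y).natAbs, ?_⟩
      have h3 : ((nm k X Y).natAbs : ℤ) * ((nm k X Y).natAbs : ℤ) = k := by
        rw [← h, sq]
        exact Int.natAbs_mul_self
      exact_mod_cast h3.symm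
  set z1 : ℤ := (u : ℤ) * X - k * v * Y with hz1def
  set z2 : ℤ := (v : ℤ) * X - u * Y with hz2def
  have hcop : IsCoprime z1 z2 := by
    have hXY' : IsCoprime (X : ℤ) (Y : ℤ) := Nat.isCoprime_iff_coprime.2 hXY
    rcases huv with h | h
    · exact cop (e := 1) (by norm_num) (by unfold nm at h; exact h) hXY'
    · exact cop (e := -1) (by norm_num) (by unfold nm at h; exact h) hXY'
  have ha : 0 < z1.natAbs := Int.natAbs_pos.2 hz1
  have hb : 0 < z2.natAbs := Int.natAbs_pos.2 hz2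
  have hcopn : Nat.Coprime z1.natAbs z2.natAbs := by
    have := Int.isCoprime_iff_gcd_eq_one.1 hcop
    exact this
  have hnab : nm k (z1.natAbs : ℤ) (z2.natAbs : ℤ) = nm k z1 z2 := by
    unfold nm
    rw [Int.natAbs_sq, Int.natAbs_sq]
  have e1 : (u : ℤ) * X + k * v * (-Y) = z1 := by rw [hz1def]; ring
  have e2 : (u : ℤ) * (-Y) + v * X = z2 := by rw [hz2def]; ring
  have hneg : nm k (X : ℤ) (-Y) = nm k X Y := by unfold nm; ring
  have hprod : nm k z1 z2 = nm k u v * nm k X Y := by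
    rw [← hneg, ← nm_mul, e1, e2]
  have hsqn : nm k (z1.natAbs : ℤ) (z2.natAbs : ℤ) ^ 2 < k := by
    rw [hnab, hprod, mul_pow]
    rcases huv with h | h <;> rw [h] <;> linarith
  obtain ⟨i', hi'⟩ := leg k z1.natAbs z2.natAbs hk ha hb hcopn hsqn
  have hu0 : (u : ℤ) ≠ 0 := by exact_mod_cast hu.ne'
  have hX0 : (X : ℤ) ≠ 0 := by exact_mod_cast hX.ne'
  have hgood : nm k (z1.natAbs : ℤ) (z2.natAbs : ℤ) ∣ 4 * ((z1.natAbs : ℕ) : ℤ) ^ 2 := by
    have h3 := grp k u v X (-Y) (nm_ne hk (Or.inl hu0)) (nm_ne hk (Or.inl hX0))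
      (by rcases huv with h | h <;> rw [h]
          · exact one_dvd _
          · exact (Int.neg_dvd.2 (one_dvd _)))
      (by rw [hneg]; exact hg)
    rw [e1, e2] at h3
    rw [hnab, Int.natAbs_sq]
    exact h3
  have hR := (rg k z1.natAbs z2.natAbs hk ha hb hcopn).1.2 hgood
  rw [← hi'] at hR
  have hii : i ≤ i' := by
    by_contra hlt'
    exact hs.2 i' (not_le.1 hlt') hR
  obtain ⟨hp1, hq1, hc1, he1⟩ := hpq i'
  obtain ⟨ea, eb⟩ := lowest hq1 hb hc1 hcopn (he1.symm.trans hi')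
  have hpa : p i ≤ z1.natAbs := ea ▸ hp hii
  have hqb : q i ≤ z2.natAbs := eb ▸ hq hii
  have hr := sqrt_pos' hk
  obtain ⟨hpi, hqi, -, -⟩ := hpq i
  have hN0 : nm k (p i) (q i) ≠ 0 := nm_ne hk (Or.inl (by exact_mod_cast hpi.ne'))
  have hN0' : ((nm k (p i) (q i) : ℤ) : ℝ) ≠ 0 := by exact_mod_cast hN0
  have hM : 0 < |((nm k (p i) (q i) : ℤ) : ℝ)| := abs_pos.2 hN0'
  have hpi' : (0 : ℝ) < p i := by exact_mod_cast hpi
  have hqi' : (0 : ℝ) < q i := by exact_mod_cast hqi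
  have hGpos : 0 < Gr k (p i) (q i) := by
    unfold Gr
    positivity
  have hMG : |((nm k (p i) (q i) : ℤ) : ℝ)| * Gr k (p i) (q i) =
      ((p i : ℝ) + q i * Real.sqrt k) ^ 2 := by
    unfold Gr
    field_simp
  have hle : |((nm k X Y : ℤ) : ℝ)| ≤ |((nm k (p i) (q i) : ℤ) : ℝ)| := by
    have h4 : |nm k X Y| ≤ |nm k (p i) (q i)| := by
      apply Int.le_of_dvd (abs_pos.2 hN0)
      exact (abs_dvd_abs _ _).2 hd
    exact_mod_cast h4
  have hsize := size hk hu hX huv hGpos hle h1 h2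
  rw [hMG] at hsize
  have hz1R : |(u : ℝ) * X - k * v * Y| = (z1.natAbs : ℝ) := by
    rw [Nat.cast_natAbs, hz1def]
    push_cast
    rfl
  have hz2R : |(v : ℝ) * X - u * Y| = (z2.natAbs : ℝ) := by
    rw [Nat.cast_natAbs, hz2def]
    push_cast
    rfl
  rw [hz1R, hz2R] at hsize
  have hpaR : (p i : ℝ) ≤ (z1.natAbs : ℝ) := by exact_mod_cast hpa
  have hqbR : (q i : ℝ) ≤ (z2.natAbs : ℝ) := by exact_mod_cast hqb
  have hfin : ((p i : ℝ) + q i * Real.sqrt k) ^ 2 ≤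
      ((z1.natAbs : ℝ) + (z2.natAbs : ℝ) * Real.sqrt k) ^ 2 := by
    apply pow_le_pow_left₀ (by positivity)
    have := mul_le_mul_of_nonneg_right hqbR hr.le
    linarith
  exact absurd hsize (not_lt.2 hfin)

/-- The exclusion of `z1 = 0`. -/
theorem excl {k : ℕ} (hk : ¬ IsSquare k) (rg : SpecRG)
    {p q : ℕ → ℕ}
    (hpq : ∀ i, 0 < p i ∧ 0 < q i ∧ Nat.Coprime (p i) (q i) ∧ conv k i = (p i : ℚ) / (q i : ℚ))
    (hN : ∀ i, nm k (p i) (q i) ^ 2 < 4 * k) (hp0 : p 0 = Nat.sqrt k) (hq0 : q 0 = 1)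
    {i : ℕ} (hs : IsSeed k i)
    {u v : ℕ} (huv : nm k u v = 1 ∨ nm k u v = -1)
    {X Y : ℕ} (hXY : Nat.Coprime X Y)
    (hd : nm k X Y ∣ nm k (p i) (q i)) : (u : ℤ) * X - k * v * Y ≠ 0 := by
  intro hz1
  have hk2 := two_le hk
  have hcop : IsCoprime ((u : ℤ) * X - k * v * Y) ((v : ℤ) * X - u * Y) := by
    have hXY' : IsCoprime (X : ℤ) (Y : ℤ) := Nat.isCoprime_iff_coprime.2 hXY
    rcases huv with h | h
    · exact cop (e := 1) (by norm_num) (by unfold nm at h; exact h) hXY'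
    · exact cop (e := -1) (by norm_num) (by unfold nm at h; exact h) hXY'
  rw [hz1, isCoprime_zero_left, Int.isUnit_iff] at hcop
  have hprod : nm k ((u : ℤ) * X - k * v * Y) ((v : ℤ) * X - u * Y) = nm k u v * nm k X Y := by
    unfold nm; ring
  have hsq : nm k X Y = k ∨ nm k X Y = -k := by
    have h0 : nm k ((u : ℤ) * X - k * v * Y) ((v : ℤ) * X - u * Y) = -k := by
      rw [hz1]
      unfold nm
      rcases hcop with h | h <;> rw [h] <;> ring
    rw [h0] at hprod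
    rcases huv with h | h <;> rw [h] at hprod
    · right; linarith
    · left; linarith
  have hkd : (k : ℤ) ∣ nm k (p i) (q i) := by
    rcases hsq with h | h
    · rw [h] at hd; exact hd
    · rw [h] at hd; exact Int.neg_dvd.1 hd
  obtain ⟨hpi, hqi, -, -⟩ := hpq i
  have hN0 : nm k (p i) (q i) ≠ 0 := nm_ne hk (Or.inl (by exact_mod_cast hpi.ne'))
  obtain ⟨m, hm⟩ := hkd
  have hm0 : m ≠ 0 := by
    rintro rfl
    exact hN0 (by rw [hm]; ring)
  have hNi := hN i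
  have hk4 : k < 4 := by
    have h1 : (k : ℤ) ^ 2 * m ^ 2 < 4 * k := by rw [← mul_pow, ← hm]; exact hNi
    have h2 : 1 ≤ m ^ 2 := by
      have : 0 < m ^ 2 := by positivity
      linarith
    have h3 : (k : ℤ) ^ 2 < 4 * k := by nlinarith [sq_nonneg (k : ℤ)]
    have h4 : (k : ℤ) < 4 := by nlinarith
    exact_mod_cast h4
  have hk23 : k = 2 ∨ k = 3 := by omega
  have hseed0 : ∃ z : ℤ, R k (conv k 0) = z := by
    obtain ⟨h1, h2, h3, h4⟩ := hpq 0
    rw [h4]
    apply (rg k (p 0) (q 0) hk h1 h2 h3).1.2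
    rw [hp0, hq0]
    rcases hk23 with rfl | rfl
    · have : Nat.sqrt 2 = 1 := (Nat.eq_sqrt.2 ⟨by norm_num, by norm_num⟩).symm
      rw [this]; unfold nm; norm_num
    · have : Nat.sqrt 3 = 1 := (Nat.eq_sqrt.2 ⟨by norm_num, by norm_num⟩).symm
      rw [this]; unfold nm; norm_num
  have hi0 : i = 0 := by
    by_contra h
    exact hs.2 0 (Nat.pos_of_ne_zero h) hseed0
  subst hi0
  rw [hp0, hq0] at hm
  rcases hk23 with rfl | rfl
  · have : Nat.sqrt 2 = 1 := (Nat.eq_sqrt.2 ⟨by norm_num, by norm_num⟩).symm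
    rw [this] at hm; unfold nm at hm; norm_num at hm; omega
  · have : Nat.sqrt 3 = 1 := (Nat.eq_sqrt.2 ⟨by norm_num, by norm_num⟩).symm
    rw [this] at hm; unfold nm at hm; norm_num at hm; omega

/-- A Pellian convergent exists. -/
theorem exists_pell {k : ℕ} (hk : ¬ IsSquare k) (leg : SpecLEG) :
    ∃ u v i : ℕ, 0 < u ∧ 0 < v ∧ Nat.Coprime u v ∧ nm k u v = 1 ∧
      conv k i = (u : ℚ) / (v : ℚ) := by
  have hk2 := two_le hk
  have hk0 : (0 : ℤ) < k := by exact_mod_cast (by omega : 0 < k)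
  have hkz : ¬ IsSquare (k : ℤ) := by
    rw [Int.isSquare_natCast_iff]; exact hk
  obtain ⟨x, y, hxy, hy⟩ := Pell.exists_of_not_isSquare hk0 hkz
  have hnm : nm k x.natAbs y.natAbs = 1 := by
    unfold nm
    rw [Int.natAbs_sq, Int.natAbs_sq]
    exact hxy
  have hv : 0 < y.natAbs := Int.natAbs_pos.2 hy
  have hx : x ≠ 0 := by
    rintro rfl
    have : (k : ℤ) * y ^ 2 = -1 := by linarith
    have h2 : 0 ≤ (k : ℤ) * y ^ 2 := by positivity
    linarith
  have hu : 0 < x.natAbs := Int.natAbs_pos.2 hx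
  have hcop : Nat.Coprime x.natAbs y.natAbs := by
    apply Nat.isCoprime_iff_coprime.1
    refine ⟨(x.natAbs : ℤ), -(k : ℤ) * (y.natAbs : ℤ), ?_⟩
    unfold nm at hnm
    linear_combination hnm
  obtain ⟨i, hi⟩ := leg k x.natAbs y.natAbs hk hu hv hcop (by
    rw [hnm]
    exact_mod_cast (by omega : 1 ^ 2 < k))
  exact ⟨_, _, i, hu, hv, hcop, hnm, hi⟩

theorem natAbs_one {n : ℤ} (h : n.natAbs = 1) : n = 1 ∨ n = -1 := by omega

/-- The case of equality. -/
theorem eqcase {k : ℕ} (hk : ¬ IsSquare k) {u v X Y : ℕ} (hX : 0 < X)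
    (huv : nm k u v = 1 ∨ nm k u v = -1) (hG : Gr k X Y = ((u : ℝ) + v * Real.sqrt k) ^ 2) :
    (u : ℤ) * X - k * v * Y = 0 ∨ (v : ℤ) * X - u * Y = 0 := by
  have hr := sqrt_pos' hk
  have hrk := sqk k
  set r := Real.sqrt k with hrdef
  have hnu : (((u : ℝ) + v * r) * ((u : ℝ) - v * r)) ^ 2 = 1 := by
    have := nm_cast k u v
    push_cast at this
    rw [← hrdef] at this
    rw [← this]
    rcases huv with h | h <;> rw [h] <;> norm_num
  have hnX : ((nm k X Y : ℤ) : ℝ) = ((X : ℝ) + Y * r) * ((X : ℝ) - Y * r) := by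
    have := nm_cast k X Y
    push_cast at this
    rw [← hrdef] at this
    exact this
  have hn0 : nm k X Y ≠ 0 := nm_ne hk (Or.inl (by exact_mod_cast hX.ne'))
  have hn0' : ((nm k X Y : ℤ) : ℝ) ≠ 0 := by exact_mod_cast hn0
  have hnpos : 0 < |((nm k X Y : ℤ) : ℝ)| := abs_pos.2 hn0'
  have hG1 : Gr k X Y * |((nm k X Y : ℤ) : ℝ)| = ((X : ℝ) + Y * r) ^ 2 := by
    unfold Gr
    rw [← hrdef]
    field_simp
  have hG2 : Gr k X Y * ((X : ℝ) - Y * r) ^ 2 = |((nm k X Y : ℤ) : ℝ)| := by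
    have h3 : Gr k X Y * ((X : ℝ) - Y * r) ^ 2 * |((nm k X Y : ℤ) : ℝ)| =
        |((nm k X Y : ℤ) : ℝ)| * |((nm k X Y : ℤ) : ℝ)| := by
      calc Gr k X Y * ((X : ℝ) - Y * r) ^ 2 * |((nm k X Y : ℤ) : ℝ)|
          = (Gr k X Y * |((nm k X Y : ℤ) : ℝ)|) * ((X : ℝ) - Y * r) ^ 2 := by ring
        _ = _ := by rw [hG1, abs_mul_abs_self, hnX]; ring
    exact mul_right_cancel₀ hnpos.ne' h3
  have e1 : ((u : ℝ) * X - k * v * Y + ((v : ℝ) * X - u * Y) * r) ^ 2 =
      |((nm k X Y : ℤ) : ℝ)| := by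
    have e : (u : ℝ) * X - k * v * Y + ((v : ℝ) * X - u * Y) * r =
        ((u : ℝ) + v * r) * ((X : ℝ) - Y * r) := by
      linear_combination ((v : ℝ) * Y) * hrk
    rw [e, mul_pow, ← hG, hG2]
  have e2 : ((u : ℝ) * X - k * v * Y - ((v : ℝ) * X - u * Y) * r) ^ 2 =
      |((nm k X Y : ℤ) : ℝ)| := by
    have e : (u : ℝ) * X - k * v * Y - ((v : ℝ) * X - u * Y) * r =
        ((u : ℝ) - v * r) * ((X : ℝ) + Y * r) := by
      linear_combination ((v : ℝ) * Y) * hrk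
    rw [e, mul_pow, ← hG1, hG]
    calc ((u : ℝ) - v * r) ^ 2 * (((u : ℝ) + v * r) ^ 2 * |((nm k X Y : ℤ) : ℝ)|)
        = (((u : ℝ) + v * r) * ((u : ℝ) - v * r)) ^ 2 * |((nm k X Y : ℤ) : ℝ)| := by ring
      _ = _ := by rw [hnu, one_mul]
  have e3 : ((u : ℝ) * X - k * v * Y) * (((v : ℝ) * X - u * Y)) = 0 := by
    have e4 : ((u : ℝ) * X - k * v * Y) * (((v : ℝ) * X - u * Y)) * (4 * r) = 0 := by
      linear_combination e1 - e2
    exact (mul_eq_zero.1 e4).resolve_right (by positivity)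
  rcases mul_eq_zero.1 e3 with h | h
  · left; exact_mod_cast h
  · right; exact_mod_cast h

/-- The arithmetic at the end. -/
theorem arith {k x y X Y : ℕ} {i : ℕ} (hk : ¬ IsSquare k) (hx : 0 < x) (hy : 0 < y)
    (hxy : Nat.Coprime x y) (hN : nm k x y ^ 2 < 4 * k) (hxe : conv k i = (x : ℚ) / (y : ℚ))
    (hi : IsSeed k i)
    (hdv : nm k X Y ∣ nm k x y) (hkn : (k : ℤ) < nm k X Y ^ 2)
    (h1 : nm k X Y ∣ (nm k x y / (Int.gcd (nm k x y) (2 * x) : ℤ)) ^ 2)
    (h2 : (nm k x y / (Int.gcd (nm k x y) (2 * x) : ℤ)) ^ 2 ∣ nm k x y) :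
    ∃ s : ℕ, IsSeed k i ∧
    (nm k (conv k i).num (conv k i).den).natAbs = s ^ 2 ∧ s ^ 2 ∣ 4 * k ∧ k < s ^ 4 ∧
      s ^ 4 < 4 * k := by
  have hN0 : nm k x y ≠ 0 := nm_ne hk (Or.inl (by exact_mod_cast hx.ne'))
  have hconv : (conv k i).num = x ∧ (conv k i).den = y := by
    rw [hxe]
    have h := Rat.num_div_eq_of_coprime (a := (x : ℤ)) (b := (y : ℤ)) (by exact_mod_cast hy)
      (by simpa using hxy)
    have h' := Rat.den_div_eq_of_coprime (a := (x : ℤ)) (b := (y : ℤ)) (by exact_mod_cast hy)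
      (by simpa using hxy)
    push_cast at h h'
    exact ⟨h, by exact_mod_cast h'⟩
  set g : ℤ := (Int.gcd (nm k x y) (2 * x) : ℤ) with hgdef
  set s' : ℤ := nm k x y / g with hs'def
  have hgN : g ∣ nm k x y := Int.gcd_dvd_left _ _
  have hgx : g ∣ 2 * x := Int.gcd_dvd_right _ _
  have hgs : g * s' = nm k x y := Int.mul_ediv_cancel' hgN
  -- the quotient is a unit
  obtain ⟨t, ht⟩ := hdv
  have ht0 : t ≠ 0 := by
    rintro rfl
    exact hN0 (by rw [ht]; ring)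
  have ht1 : t ^ 2 = 1 := by
    have h3 : nm k X Y ^ 2 * t ^ 2 < 4 * nm k X Y ^ 2 := by
      rw [← mul_pow, ← ht]; linarith
    have h4 : 0 < nm k X Y ^ 2 := by
      have : (0 : ℤ) ≤ k := Int.natCast_nonneg k
      linarith
    have h5 : t ^ 2 < 4 := by
      by_contra h
      have h6 : 4 ≤ t ^ 2 := not_lt.1 h
      nlinarith
    have h7 : t < 2 := by nlinarith
    have h8 : -2 < t := by nlinarith
    have h9 : t = -1 ∨ t = 1 := by omega
    rcases h9 with h | h <;> rw [h] <;> norm_num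
  have habs : (nm k X Y).natAbs = (nm k x y).natAbs := by
    rw [ht, Int.natAbs_mul]
    have : t.natAbs = 1 := by
      have h9 : t = 1 ∨ t = -1 := by
        have h10 : (t - 1) * (t + 1) = 0 := by linear_combination ht1
        rcases mul_eq_zero.1 h10 with h | h
        · left; linarith
        · right; linarith
      rcases h9 with h | h <;> rw [h] <;> rfl
    rw [this, mul_one]
  have hs2 : (nm k x y).natAbs = s'.natAbs ^ 2 := by
    apply Nat.dvd_antisymm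
    · rw [← habs, ← Int.natAbs_pow]
      exact Int.natAbs_dvd_natAbs.2 h1
    · rw [← Int.natAbs_pow]
      exact Int.natAbs_dvd_natAbs.2 h2
  have hs0 : 0 < s'.natAbs := by
    rcases Nat.eq_zero_or_pos s'.natAbs with h | h
    · exfalso
      rw [h] at hs2
      have := Int.natAbs_pos.2 hN0
      omega
    · exact h
  have hgs2 : g.natAbs = s'.natAbs := by
    have h3 : g.natAbs * s'.natAbs = s'.natAbs * s'.natAbs := by
      rw [← Int.natAbs_mul, hgs, hs2, sq]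
    exact Nat.eq_of_mul_eq_mul_right hs0 h3
  have hsx : (s'.natAbs : ℤ) ∣ 2 * x := by
    rw [← hgs2]
    exact (Int.natAbs_dvd).2 hgx
  have hsN : ((s'.natAbs : ℤ)) ^ 2 ∣ nm k x y := by
    have : ((s'.natAbs : ℤ)) ^ 2 = s' ^ 2 := Int.natAbs_sq s'
    rw [this]
    exact h2
  have hsky : ((s'.natAbs : ℤ)) ^ 2 ∣ (4 * k) * (y : ℤ) ^ 2 := by
    have h3 : ((s'.natAbs : ℤ)) ^ 2 ∣ (2 * (x : ℤ)) ^ 2 := pow_dvd_pow_of_dvd hsx 2
    have h4 : (4 * (k : ℤ)) * (y : ℤ) ^ 2 = (2 * (x : ℤ)) ^ 2 - 4 * nm k x y := by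
      unfold nm; ring
    rw [h4]
    exact dvd_sub h3 (hsN.mul_left 4)
  have hcopy : IsCoprime (((s'.natAbs : ℤ)) ^ 2) ((y : ℤ) ^ 2) := by
    have h3 : IsCoprime ((x : ℤ) ^ 2) (y : ℤ) := (Nat.isCoprime_iff_coprime.2 hxy).pow_left
    have h4 : IsCoprime (nm k x y) (y : ℤ) := by
      have h5 := h3.add_mul_right_left (-(k : ℤ) * y)
      have h6 : (x : ℤ) ^ 2 + -(k : ℤ) * y * y = nm k x y := by unfold nm; ring
      rw [h6] at h5
      exact h5
    exact (h4.of_isCoprime_of_dvd_left hsN).pow_right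
  have hs4k : ((s'.natAbs : ℤ)) ^ 2 ∣ 4 * k := hcopy.dvd_of_dvd_mul_right hsky
  have hNsq : nm k x y ^ 2 = ((s'.natAbs : ℤ)) ^ 4 := by
    have h3 : ((nm k x y).natAbs : ℤ) ^ 2 = nm k x y ^ 2 := Int.natAbs_sq _
    rw [← h3, hs2]
    push_cast
    ring
  refine ⟨s'.natAbs, hi, ?_, ?_, ?_, ?_⟩
  · rw [hconv.1, hconv.2]
    exact hs2
  · exact_mod_cast hs4k
  · have h3 : (k : ℤ) < ((s'.natAbs : ℤ)) ^ 4 := by
      rw [← hNsq, ht, mul_pow, ht1, mul_one]
      exact hkn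
    exact_mod_cast h3
  · have h3 : ((s'.natAbs : ℤ)) ^ 4 < 4 * k := by
      rw [← hNsq]
      exact hN
    exact_mod_cast h3

end MAINM

open MAINM in
theorem specMAIN (cf : SpecCF) (leg : SpecLEG) (itr : SpecITR) (pow : SpecPOW) (grp : SpecGRP)
    (rg : SpecRG) : SpecMAIN := by
  classical
  intro k hk
  have hk2 := two_le hk
  obtain ⟨p, q, hpq, hp, hq, hN, hp0, hq0⟩ := cf k hk
  have hpell : ∀ i, IsPellian k (((conv k i : ℝ)) : OnePoint ℝ) ↔
      (nm k (p i) (q i)).natAbs = 1 := by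
    intro i
    obtain ⟨h1, h2, h3, h4⟩ := hpq i
    have := (rg k (p i) (q i) hk h1 h2 h3).2
    rw [h4]
    push_cast
    exact this
  have hseed : ∀ i, (∃ z : ℤ, R k (conv k i) = z) ↔ nm k (p i) (q i) ∣ 4 * ((p i : ℕ) : ℤ) ^ 2 := by
    intro i
    obtain ⟨h1, h2, h3, h4⟩ := hpq i
    have := (rg k (p i) (q i) hk h1 h2 h3).1
    rw [h4]
    exact this
  have hps : ∀ i, (nm k (p i) (q i)).natAbs = 1 → ∃ z : ℤ, R k (conv k i) = z := by
    intro i hi
    rw [hseed]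
    rcases natAbs_one hi with h | h <;> rw [h]
    · exact one_dvd _
    · exact Int.neg_dvd.2 (one_dvd _)
  -- existence
  have hex : ∃ i, IsPellian k (((conv k i : ℝ)) : OnePoint ℝ) := by
    obtain ⟨u, v, i, hu, hv, hc, hn, hi⟩ := exists_pell hk leg
    refine ⟨i, ?_⟩
    have := (rg k u v hk hu hv hc).2
    rw [hi]
    push_cast
    exact this.2 (by rw [hn]; rfl)
  obtain ⟨j, hj⟩ : ∃ j, IsFirstConv k j := ⟨Nat.find hex, Nat.find_spec hex, fun i hi =>
    Nat.find_min hex hi⟩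
  have hjn : (nm k (p j) (q j)).natAbs = 1 := (hpell j).1 hj.1
  have hex2 : ∃ i, ∃ z : ℤ, R k (conv k i) = z := ⟨j, hps j hjn⟩
  obtain ⟨i, hi⟩ : ∃ i, IsSeed k i := ⟨Nat.find hex2, Nat.find_spec hex2, fun i hi =>
    Nat.find_min hex2 hi⟩
  obtain ⟨hx, hy, hxy, hxe⟩ := hpq i
  obtain ⟨hu, hv, huv, hue⟩ := hpq j
  have hNd : nm k (p i) (q i) ∣ 4 * ((p i : ℕ) : ℤ) ^ 2 := (hseed i).1 hi.1
  have hN0 : nm k (p i) (q i) ≠ 0 := nm_ne hk (Or.inl (by exact_mod_cast hx.ne'))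
  have huv1 := natAbs_one hjn
  -- real quantities
  have hr := sqrt_pos' hk
  set x := p i with hxdef
  set y := q i with hydef
  set u := p j with hudef
  set v := q j with hvdef
  have hx' : (0 : ℝ) < x := by exact_mod_cast hx
  have hy' : (0 : ℝ) < y := by exact_mod_cast hy
  have hu' : (0 : ℝ) < u := by exact_mod_cast hu
  have hv' : (0 : ℝ) < v := by exact_mod_cast hv
  -- iterates and primitive parts
  have hprim : ∀ e : ℕ, ∃ c X Y : ℕ, 0 < c ∧ 0 < X ∧ pw k x y e = (c * X, c * Y) ∧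
      Nat.Coprime X Y ∧ nm k X Y ∣ nm k x y ∧ nm k X Y ∣ 4 * (X : ℤ) ^ 2 ∧
      Gr k X Y = Gr k x y ^ e ∧ (0 < e → 0 < Y) ∧
      (Even e → nm k X Y ∣ (nm k x y / (Int.gcd (nm k x y) (2 * x) : ℤ)) ^ 2 ∧
        (nm k x y / (Int.gcd (nm k x y) (2 * x) : ℤ)) ^ 2 ∣ nm k x y) := by
    intro e
    obtain ⟨c, X, Y, hc, hpw, hcop, hdv, hev⟩ := pow k x y e hk hx hy hxy hNd
    have hposA : ∀ e, 0 < (pw k x y e).1 := by
      intro e
      rcases e with _ | e
      · simp [pw]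
      · exact (itr k x y e (by omega) hx hy).1
    have hX : 0 < X := by
      have := hposA e
      rw [hpw] at this
      exact Nat.pos_of_mul_pos_left this
    have hgood : ∀ e, nm k (pw k x y e).1 (pw k x y e).2 ∣ 4 * (((pw k x y e).1 : ℕ) : ℤ) ^ 2 := by
      intro e
      induction e with
      | zero => simp [pw, nm]
      | succ e ih =>
        have h1 := grp k x y (pw k x y e).1 (pw k x y e).2 hN0
          (nm_ne hk (Or.inl (by exact_mod_cast (hposA e).ne'))) hNd ih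
        simp only [pw]
        push_cast
        have e1 : (x : ℤ) * ((pw k x y e).2 : ℤ) + y * ((pw k x y e).1 : ℤ) =
          y * ((pw k x y e).1 : ℤ) + x * ((pw k x y e).2 : ℤ) := by ring
        rw [e1] at h1
        exact h1
    refine ⟨c, X, Y, hc, hX, hpw, hcop, hdv, ?_, Gr_pow hc hpw, ?_, hev⟩
    · have h1 := hgood e
      rw [hpw] at h1
      simp only at h1
      have hc0 : ((c : ℤ) ^ 2) ≠ 0 := by positivity
      have e1 : nm k ((c * X : ℕ) : ℤ) ((c * Y : ℕ) : ℤ) = (c : ℤ) ^ 2 * nm k X Y := by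
        unfold nm; push_cast; ring
      have e2 : 4 * (((c * X : ℕ) : ℤ)) ^ 2 = (c : ℤ) ^ 2 * (4 * (X : ℤ) ^ 2) := by
        push_cast; ring
      rw [e1, e2] at h1
      exact (mul_dvd_mul_iff_left hc0).1 h1
    · intro he
      obtain ⟨m, rfl⟩ : ∃ m, e = m + 1 := ⟨e - 1, by omega⟩
      have := (itr k x y m (by omega) hx hy).2.1
      rw [hpw] at this
      exact Nat.pos_of_mul_pos_left this
  set β := Gr k x y with hβdef
  have hNR : ((nm k x y : ℤ) : ℝ) ≠ 0 := by exact_mod_cast hN0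
  have hNabs : 0 < |((nm k x y : ℤ) : ℝ)| := abs_pos.2 hNR
  have hβ1 : 1 < β := by
    rw [hβdef]
    unfold Gr
    rw [one_lt_div hNabs, nm_cast, abs_mul]
    push_cast
    have h1 : 0 < (x : ℝ) + y * Real.sqrt k := by positivity
    rw [abs_of_pos h1, sq]
    apply mul_lt_mul_of_pos_left _ h1
    rw [abs_lt]
    constructor
    · linarith
    · have : 0 < (y : ℝ) * Real.sqrt k := by positivity
      linarith
  have hβ0 : 0 < β := by linarith
  set H := ((u : ℝ) + v * Real.sqrt k) ^ 2 with hHdef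
  have hH1 : 1 < H := by
    have h1 : 1 ≤ (u : ℝ) := by exact_mod_cast hu
    have h2 : 0 < (v : ℝ) * Real.sqrt k := by positivity
    have h3 : 1 < (u : ℝ) + v * Real.sqrt k := by linarith
    exact one_lt_pow₀ h3 two_ne_zero
  have hGru : Gr k u v = H := by
    unfold Gr
    rw [← hHdef]
    rcases huv1 with h | h <;> rw [h] <;> norm_num
  have hitf : ∀ (m c X Y : ℕ), 0 < m → 0 < c → pw k x y m = (c * X, c * Y) →
      (f k (conv k i))^[m] ∞ = (((X : ℝ) / (Y : ℝ) : ℝ) : OnePoint ℝ) := by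
    intro m c X Y hm hc hpw
    obtain ⟨m', rfl⟩ : ∃ m', m = m' + 1 := ⟨m - 1, by omega⟩
    rw [hxe, (itr k x y m' (by omega) hx hy).2.2, hpw]
    have hc' : (c : ℝ) ≠ 0 := by exact_mod_cast hc.ne'
    push_cast
    rw [mul_div_mul_left _ _ hc']
  have hQ : ∀ (e c X Y : ℕ), 0 < c → 0 < X → pw k x y e = (c * X, c * Y) → Nat.Coprime X Y →
      Gr k X Y = β ^ e → (v : ℤ) * X = u * Y → Q1At k := by
    intro e c X Y hc hX hpw hcop hG hz
    have hz' : v * X = u * Y := by exact_mod_cast hz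
    have hY : 0 < Y := by
      rcases Nat.eq_zero_or_pos Y with h | h
      · exfalso
        rw [h, mul_zero] at hz'
        have := Nat.mul_pos hv hX
        omega
      · exact h
    have hXu : X = u ∧ Y = v := by
      apply lowest hY hv hcop huv
      have hY' : (Y : ℚ) ≠ 0 := by exact_mod_cast hY.ne'
      have hv'' : (v : ℚ) ≠ 0 := by exact_mod_cast hv.ne'
      rw [div_eq_div_iff hY' hv'']
      have : (v : ℚ) * X = u * Y := by exact_mod_cast hz'
      linarith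
    obtain ⟨rfl, rfl⟩ := hXu
    have he : 0 < e := by
      rcases Nat.eq_zero_or_pos e with h | h
      · exfalso
        rw [h] at hpw
        simp only [pw, Prod.mk.injEq] at hpw
        have := Nat.mul_pos hc hY
        omega
      · exact h
    have hval := hitf e c u v he hc hpw
    have hcj : (((conv k j : ℝ)) : OnePoint ℝ) = (((u : ℝ) / (v : ℝ) : ℝ) : OnePoint ℝ) := by
      rw [hue]
      push_cast
      rfl
    refine ⟨i, e, j, hi, ⟨he, ?_, ?_⟩, hj, ?_⟩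
    · rw [hval, ← hcj]
      exact hj.1
    · intro m hm1 hme hP
      obtain ⟨c', X', Y', hc', hX', hpw', hcop', -, -, hG', hY', -⟩ := hprim m
      have hY'' : 0 < Y' := hY' hm1
      rw [hitf m c' X' Y' hm1 hc' hpw', (rg k X' Y' hk hX' hY'' hcop').2] at hP
      obtain ⟨i', hi'⟩ := leg k X' Y' hk hX' hY'' hcop' (by
        rcases natAbs_one hP with h | h <;> rw [h]
        · exact_mod_cast (by omega : 1 ^ 2 < k)
        · have : ((-1 : ℤ)) ^ 2 = 1 := by norm_num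
          rw [this]
          exact_mod_cast (by omega : 1 < k))
      obtain ⟨h1, h2, h3, h4⟩ := hpq i'
      obtain ⟨ea, eb⟩ := lowest h2 hY'' h3 hcop' (h4.symm.trans hi')
      have hji : j ≤ i' := by
        by_contra hlt
        refine hj.2 i' (not_le.1 hlt) ((hpell i').2 ?_)
        rw [ea, eb]
        exact hP
      have hXX : u ≤ X' := ea ▸ hp.monotone hji
      have hYY : v ≤ Y' := eb ▸ hq hji
      have hXXr : (u : ℝ) ≤ X' := by exact_mod_cast hXX
      have hYYr : (v : ℝ) ≤ Y' := by exact_mod_cast hYY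
      have hG'' : Gr k X' Y' = ((X' : ℝ) + Y' * Real.sqrt k) ^ 2 := by
        unfold Gr
        rcases natAbs_one hP with h | h <;> rw [h] <;> norm_num
      have h5 : H ≤ Gr k X' Y' := by
        rw [hG'', hHdef]
        apply pow_le_pow_left₀ (by positivity)
        have := mul_le_mul_of_nonneg_right hYYr hr.le
        linarith
      have h6 : β ^ m < β ^ e := pow_lt_pow_right₀ hβ1 hme
      rw [hG', ← hGru, hG] at h5
      exact absurd h5 (not_le.2 h6)
    · rw [hval, hcj]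
  by_cases hq1 : Q1At k
  · exact Or.inl hq1
  right
  obtain ⟨e, he1, he2⟩ := exists_nat_pow_near hH1.le hβ1
  have hz1 : ∀ e : ℕ, ∀ X Y : ℕ, Nat.Coprime X Y → nm k X Y ∣ nm k x y →
      (u : ℤ) * X - k * v * Y ≠ 0 := by
    intro e X Y hcop hd
    exact excl hk rg hpq hN hp0 hq0 hi huv1 hcop hd
  have hz2 : ∀ (e c X Y : ℕ), 0 < c → 0 < X → pw k x y e = (c * X, c * Y) → Nat.Coprime X Y →
      Gr k X Y = β ^ e → (v : ℤ) * X - u * Y ≠ 0 := by
    intro e c X Y hc hX hpw hcop hG h0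
    exact hq1 (hQ e c X Y hc hX hpw hcop hG (by linarith))
  -- strictness
  have hstrict : β ^ e < H := by
    rcases lt_or_eq_of_le he1 with h | h
    · exact h
    exfalso
    obtain ⟨c, X, Y, hc, hX, hpw, hcop, hdv, hg, hG, -, -⟩ := hprim e
    have a1 := hz1 e X Y hcop hdv
    have a2 := hz2 e c X Y hc hX hpw hcop hG
    have b := eqcase hk hX huv1 (hG.trans h)
    rcases b with b | b
    · exact a1 b
    · exact a2 b
  have hkey : ∀ E : ℕ, E = e ∨ E = e + 1 → ∀ c X Y : ℕ, 0 < c → 0 < X →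
      pw k x y E = (c * X, c * Y) → Nat.Coprime X Y → nm k X Y ∣ nm k x y →
      nm k X Y ∣ 4 * (X : ℤ) ^ 2 → Gr k X Y = β ^ E → (k : ℤ) < nm k X Y ^ 2 := by
    intro E hE c X Y hc hX hpw hcop hdv hg hG
    refine key hk leg grp rg hpq hp.monotone hq hi hu huv1 hX hcop hdv hg ?_ ?_
      (hz1 E X Y hcop hdv) (hz2 E c X Y hc hX hpw hcop hG)
    · rw [hG]
      rcases hE with rfl | rfl
      · calc H < β ^ (E + 1) := he2
          _ = β * β ^ E := by rw [pow_succ]; ring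
      · calc H < β ^ (e + 1) := he2
          _ = 1 * β ^ (e + 1) := (one_mul _).symm
          _ < β * β ^ (e + 1) := mul_lt_mul_of_pos_right hβ1 (pow_pos hβ0 _)
    · rw [hG]
      rcases hE with rfl | rfl
      · calc β ^ E < H := hstrict
          _ = 1 * H := (one_mul _).symm
          _ < β * H := mul_lt_mul_of_pos_right hβ1 (by linarith)
      · calc β ^ (e + 1) = β * β ^ e := by rw [pow_succ]; ring
          _ < β * H := mul_lt_mul_of_pos_left hstrict hβ0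
  obtain ⟨E, hE, hEe⟩ : ∃ E, (E = e ∨ E = e + 1) ∧ Even E := by
    rcases Nat.even_or_odd e with h | h
    · exact ⟨e, Or.inl rfl, h⟩
    · exact ⟨e + 1, Or.inr rfl, h.add_one⟩
  obtain ⟨c, X, Y, hc, hX, hpw, hcop, hdv, hg, hG, -, hev⟩ := hprim E
  have hkn := hkey E hE c X Y hc hX hpw hcop hdv hg hG
  obtain ⟨hev1, hev2⟩ := hev hEe
  exact ⟨i, arith hk hx hy hxy (hN i) hxe hi hdv hkn hev1 hev2⟩

end Pool.Agent.Lib.MP_c624c9_nt.EX
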