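import Pool.Agent.Lib.MP_c624c9_nt.EX.Spec

/-!
# Module POW: the norm of the primitive part of the powers
-/

set_option autoImplicit false

namespace Pool.Agent.Lib.MP_c624c9_nt.EX

namespace POWM

/-- the powers in the ring of the `X + Y √k` -/
lemma pw_eq (k x y : ℕ) (n : ℕ) : (⟨x, y⟩ : ℤ√(k : ℤ)) ^ n =
    ⟨((pw k x y n).1 : ℤ), ((pw k x y n).2 : ℤ)⟩ := by
  induction n with
  | zero =>
    rw [pow_zero]
    ext <;> simp [pw]
  | succ n ih =>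
    rw [pow_succ', ih]
    ext
    · simp only [Zsqrtd.re_mul, pw]
      push_cast
      ring
    · simp only [Zsqrtd.im_mul, pw]
      push_cast
      ring

lemma norm_eq (k : ℕ) (a b : ℤ) : (⟨a, b⟩ : ℤ√(k : ℤ)).norm = nm k a b := by
  rw [Zsqrtd.norm_def, nm]
  ring

/-- the norm of the primitive part divides the norm -/
lemma prim (k : ℕ) (c X Y m : ℤ) (z : ℤ√(k : ℤ)) (hm : m ≠ 0) (hXY : IsCoprime X Y)
    (h1 : c * X = m * z.re) (h2 : c * Y = m * z.im) : nm k X Y ∣ z.norm := by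
  have hmc : m ∣ c := by
    obtain ⟨u, v, huv⟩ := hXY
    refine ⟨u * z.re + v * z.im, ?_⟩
    linear_combination u * h1 + v * h2 - c * huv
  obtain ⟨e, rfl⟩ := hmc
  have h1' : e * X = z.re := by
    apply mul_left_cancel₀ hm
    linarith
  have h2' : e * Y = z.im := by
    apply mul_left_cancel₀ hm
    linarith
  refine ⟨e ^ 2, ?_⟩
  rw [Zsqrtd.norm_def, ← h1', ← h2', nm]
  ring

/-- the recursion -/
lemma recur {R : Type} [CommRing R] (N T γ w z1 : R) (hγ : γ ^ 2 = N * T * γ - N ^ 2)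
    (h1 : w * γ = N * z1) (j : ℕ) : (∃ z, w * γ ^ j = N ^ j * z) ∧
      ∃ z, w * γ ^ (j + 1) = N ^ (j + 1) * z := by
  induction j with
  | zero => exact ⟨⟨w, by ring⟩, ⟨z1, by simpa using h1⟩⟩
  | succ j ih =>
    obtain ⟨⟨a, ha⟩, ⟨b, hb⟩⟩ := ih
    refine ⟨⟨b, hb⟩, ⟨T * b - a, ?_⟩⟩
    calc w * γ ^ (j + 1 + 1) = w * γ ^ j * γ ^ 2 := by ring
      _ = w * γ ^ j * (N * T * γ - N ^ 2) := by rw [hγ]
      _ = N * T * (w * γ ^ (j + 1)) - N ^ 2 * (w * γ ^ j) := by ring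
      _ = N ^ (j + 1 + 1) * (T * b - a) := by rw [ha, hb]; ring

lemma nrm_pow (k : ℕ) (z : ℤ√(k : ℤ)) (n : ℕ) : (z ^ n).norm = z.norm ^ n :=
  map_pow (Zsqrtd.normMonoidHom) z n

lemma nm_ne_zero (k x y : ℕ) (hk : ¬ IsSquare k) (hy : 0 < y) : nm k x y ≠ 0 := by
  intro h
  apply hk
  have h1 : x ^ 2 = k * y ^ 2 := by
    unfold nm at h
    have : ((x ^ 2 : ℕ) : ℤ) = ((k * y ^ 2 : ℕ) : ℤ) := by push_cast; linarith
    exact_mod_cast this
  have h2 : y ∣ x := by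
    rw [← Nat.pow_dvd_pow_iff (two_ne_zero)]
    exact ⟨k, by rw [h1]; ring⟩
  obtain ⟨z, rfl⟩ := h2
  refine ⟨z, ?_⟩
  have : y ^ 2 * (z * z) = y ^ 2 * k := by nlinarith
  exact (Nat.eq_of_mul_eq_mul_left (by positivity) this).symm

end POWM

open POWM in
theorem specPOW : SpecPOW := by
  intro k x y n hk hx hy hxy hdvd
  have hN0 := nm_ne_zero k x y hk hy
  obtain ⟨t, ht⟩ := hdvd
  set N : ℤ := nm k x y with hN
  have hNe : N = (x : ℤ) ^ 2 - k * (y : ℤ) ^ 2 := by rw [hN, nm]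
  -- positivity of the first coordinate
  have hpos : ∀ m, 0 < (pw k x y m).1 := by
    intro m
    induction m with
    | zero => simp [pw]
    | succ m ih =>
      have : 0 < x * (pw k x y m).1 := Nat.mul_pos hx ih
      simp only [pw]
      omega
  have hP := hpos n
  obtain ⟨c, X, Y, hc, hXY, e1, e2⟩ : ∃ c X Y : ℕ, 0 < c ∧ Nat.Coprime X Y ∧
      (pw k x y n).1 = c * X ∧ (pw k x y n).2 = c * Y := by
    have hg : 0 < Nat.gcd (pw k x y n).1 (pw k x y n).2 := Nat.gcd_pos_of_pos_left _ hP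
    refine ⟨Nat.gcd (pw k x y n).1 (pw k x y n).2, (pw k x y n).1 / Nat.gcd (pw k x y n).1
      (pw k x y n).2, (pw k x y n).2 / Nat.gcd (pw k x y n).1 (pw k x y n).2, hg,
      Nat.coprime_div_gcd_div_gcd hg, (Nat.mul_div_cancel' (Nat.gcd_dvd_left _ _)).symm,
      (Nat.mul_div_cancel' (Nat.gcd_dvd_right _ _)).symm⟩
  have hcop : IsCoprime (X : ℤ) (Y : ℤ) := Nat.isCoprime_iff_coprime.2 hXY
  set α : ℤ√(k : ℤ) := ⟨x, y⟩ with hα
  have hαn : α ^ n = ⟨((c * X : ℕ) : ℤ), ((c * Y : ℕ) : ℤ)⟩ := by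
    rw [hα, pw_eq, e1, e2]
  have hnorm : α.norm = N := norm_eq k x y
  -- the quadratic equations
  have hα2 : α ^ 2 = ((2 * (x : ℤ) : ℤ) : ℤ√(k : ℤ)) * α - ((N : ℤ) : ℤ√(k : ℤ)) := by
    rw [pow_two]
    ext
    · simp only [hα, Zsqrtd.re_mul, Zsqrtd.re_sub, Zsqrtd.re_intCast, Zsqrtd.im_intCast]
      rw [hNe]; ring
    · simp only [hα, Zsqrtd.im_mul, Zsqrtd.im_sub, Zsqrtd.re_intCast, Zsqrtd.im_intCast]
      ring
  have htc : (4 : ℤ√(k : ℤ)) * ((x : ℤ) : ℤ√(k : ℤ)) ^ 2 = (N : ℤ√(k : ℤ)) * (t : ℤ√(k : ℤ)) := by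
    have := congrArg (fun a : ℤ => (a : ℤ√(k : ℤ))) ht
    push_cast at this
    exact_mod_cast this
  have hα2' : α ^ 2 = 2 * ((x : ℤ) : ℤ√(k : ℤ)) * α - (N : ℤ√(k : ℤ)) := by
    rw [hα2]; push_cast; ring
  have hγ : (α ^ 2) ^ 2 = (N : ℤ√(k : ℤ)) * ((t - 2 : ℤ) : ℤ√(k : ℤ)) * α ^ 2 -
      (N : ℤ√(k : ℤ)) ^ 2 := by
    push_cast
    linear_combination (α ^ 2 + 2 * ((x : ℤ) : ℤ√(k : ℤ)) * α + N) * hα2' + α ^ 2 * htc
  have hcast : ∀ (a : ℤ) (m : ℕ) (z : ℤ√(k : ℤ)), (((a : ℤ√(k : ℤ)) ^ m) * z).re = a ^ m * z.re ∧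
      (((a : ℤ√(k : ℤ)) ^ m) * z).im = a ^ m * z.im := by
    intro a m z
    rw [← Int.cast_pow]
    generalize a ^ m = b
    simp
  have hnormc : ∀ (a : ℤ), ((a : ℤ√(k : ℤ))).norm = a * a := fun a => Zsqrtd.norm_intCast a
  -- the number `s`
  set g : ℤ := (Int.gcd N (2 * x) : ℤ) with hg
  have hg0 : g ≠ 0 := by
    rw [hg]
    intro h
    have h1 : Int.gcd N (2 * x) = 0 := by exact_mod_cast h
    rw [Int.gcd_eq_zero_iff] at h1
    exact hN0 h1.1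
  obtain ⟨s, hs⟩ : g ∣ N := by rw [hg]; exact Int.gcd_dvd_left _ _
  obtain ⟨m, hm⟩ : g ∣ 2 * (x : ℤ) := by rw [hg]; exact Int.gcd_dvd_right _ _
  have hs' : N / g = s := by rw [hs]; exact Int.mul_ediv_cancel_left _ hg0
  have hsm : IsCoprime s m := by
    rw [Int.isCoprime_iff_gcd_eq_one]
    have h1 : Int.gcd N (2 * x) = g.natAbs * Int.gcd s m := by
      rw [hs, hm, Int.gcd_mul_left]
    have h2 : g.natAbs = Int.gcd N (2 * x) := by rw [hg]; simp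
    rw [← h2] at h1
    have h3 : 0 < g.natAbs := Int.natAbs_pos.2 hg0
    have : g.natAbs * Int.gcd s m = g.natAbs * 1 := by rw [← h1, mul_one]
    exact Nat.eq_of_mul_eq_mul_left h3 this
  have hsg : s ∣ g := by
    have h1 : s ∣ g * m ^ 2 := by
      refine ⟨t, ?_⟩
      apply mul_left_cancel₀ hg0
      have : (2 * (x : ℤ)) ^ 2 = N * t := by rw [← ht]; ring
      rw [hm, hs] at this
      linear_combination this
    exact (hsm.pow_right (n := 2)).dvd_of_dvd_mul_right h1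
  have hs2 : s ^ 2 ∣ N := by
    obtain ⟨e, he⟩ := hsg
    exact ⟨e, by rw [hs, he]; ring⟩
  rcases Nat.even_or_odd n with hev | hodd
  · -- even exponent
    obtain ⟨j, hj⟩ := hev
    have h1 : ((s : ℤ) : ℤ√(k : ℤ)) * α ^ 2 = (N : ℤ√(k : ℤ)) * (((m : ℤ) : ℤ√(k : ℤ)) * α - s) := by
      have hm' : (2 : ℤ√(k : ℤ)) * ((x : ℤ) : ℤ√(k : ℤ)) = (g : ℤ√(k : ℤ)) * (m : ℤ√(k : ℤ)) := by
        exact_mod_cast congrArg (fun a : ℤ => (a : ℤ√(k : ℤ))) hm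
      have hs'' : (N : ℤ√(k : ℤ)) = (g : ℤ√(k : ℤ)) * (s : ℤ√(k : ℤ)) := by
        exact_mod_cast congrArg (fun a : ℤ => (a : ℤ√(k : ℤ))) hs
      linear_combination (s : ℤ√(k : ℤ)) * hα2' + (s : ℤ√(k : ℤ)) * α * hm' -
        ((m : ℤ) : ℤ√(k : ℤ)) * α * hs''
    obtain ⟨⟨z, hz⟩, _⟩ := recur _ _ _ _ _ hγ h1 j
    have hz' : ((s : ℤ) : ℤ√(k : ℤ)) * α ^ n = (N : ℤ√(k : ℤ)) ^ j * z := by
      rw [← hz, hj, ← pow_mul, two_mul]
    have hzn : z.norm = s ^ 2 := by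
      have h2 := congrArg Zsqrtd.norm hz'
      rw [Zsqrtd.norm_mul, Zsqrtd.norm_mul, nrm_pow, nrm_pow, hnorm, hnormc, hnormc, hj] at h2
      have h3 : (N ^ (j + j)) * (s * s) = N ^ (j + j) * z.norm := by
        rw [mul_pow] at h2
        rw [pow_add]
        linear_combination h2
      have := mul_left_cancel₀ (pow_ne_zero _ hN0) h3
      rw [← this]; ring
    have hd : nm k X Y ∣ s ^ 2 := by
      rw [← hzn]
      refine prim k (s * c) X Y (N ^ j) z (pow_ne_zero _ hN0) hcop ?_ ?_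
      · rw [← (hcast N j z).1, ← hz', hαn]
        simp
        ring
      · rw [← (hcast N j z).2, ← hz', hαn]
        simp
        ring
    refine ⟨c, X, Y, hc, Prod.ext e1 e2, hXY, hd.trans hs2, fun _ => ?_⟩
    rw [hs']
    exact ⟨hd, hs2⟩
  · -- odd exponent
    obtain ⟨j, hj⟩ := hodd
    have h1 : α * α ^ 2 = (N : ℤ√(k : ℤ)) * (((t - 1 : ℤ) : ℤ√(k : ℤ)) * α -
        2 * ((x : ℤ) : ℤ√(k : ℤ))) := by
      push_cast
      linear_combination (α + 2 * ((x : ℤ) : ℤ√(k : ℤ))) * hα2' + α * htc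
    obtain ⟨⟨z, hz⟩, _⟩ := recur _ _ _ _ _ hγ h1 j
    have hz' : α ^ n = (N : ℤ√(k : ℤ)) ^ j * z := by
      rw [← hz, hj, ← pow_mul]; ring
    have hzn : z.norm = N := by
      have h2 := congrArg Zsqrtd.norm hz'
      rw [Zsqrtd.norm_mul, nrm_pow, nrm_pow, hnorm, hnormc, hj] at h2
      have h3 : (N ^ (2 * j)) * N = N ^ (2 * j) * z.norm := by
        rw [← pow_succ, h2]; ring
      exact (mul_left_cancel₀ (pow_ne_zero _ hN0) h3).symm
    refine ⟨c, X, Y, hc, Prod.ext e1 e2, hXY, ?_, fun hev => ?_⟩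
    · rw [← hzn]
      refine prim k c X Y (N ^ j) z (pow_ne_zero _ hN0) hcop ?_ ?_
      · rw [← (hcast N j z).1, ← hz', hαn]
        push_cast; ring
      · rw [← (hcast N j z).2, ← hz', hαn]
        push_cast; ring
    · exfalso
      rw [hj] at hev
      exact (Nat.not_even_iff_odd.2 ⟨j, rfl⟩) hev

end Pool.Agent.Lib.MP_c624c9_nt.EX
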