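import Pool.Agent.Lib.MP_c624c9_nt.EX.Spec

/-!
# RG: integrality of `R` and Pellian fractions in terms of the norm
-/

set_option autoImplicit false

open OnePoint

namespace Pool.Agent.Lib.MP_c624c9_nt.EX

namespace RGM

theorem nm_ne {k x y : ℕ} (hk : ¬ IsSquare k) (hy : 0 < y) (hc : Nat.Coprime x y) :
    nm k x y ≠ 0 := by
  intro h
  unfold nm at h
  have h1 : (x : ℤ) ^ 2 = (k : ℤ) * (y : ℤ) ^ 2 := by linarith
  have h2 : x ^ 2 = k * y ^ 2 := by exact_mod_cast h1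
  have h3 : y ^ 2 ∣ x ^ 2 := ⟨k, by rw [h2, mul_comm]⟩
  have h4 : Nat.Coprime (x ^ 2) (y ^ 2) := Nat.Coprime.pow 2 2 hc
  have h5 : y ^ 2 = 1 := Nat.Coprime.eq_one_of_dvd h4.symm h3
  rw [h5, mul_one] at h2
  exact hk ⟨x, by rw [← h2, pow_two]⟩

theorem R_eq {k x y : ℕ} (hk : ¬ IsSquare k) (hy : 0 < y) (hc : Nat.Coprime x y) :
    R k ((x : ℚ) / (y : ℚ)) * (nm k x y : ℚ) = -(4 * (x : ℚ) ^ 2) := by
  have hne := nm_ne hk hy hc
  have hne' : ((nm k x y : ℤ) : ℚ) ≠ 0 := by exact_mod_cast hne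
  have hy' : (y : ℚ) ≠ 0 := by exact_mod_cast hy.ne'
  have h1 : ((nm k x y : ℤ) : ℚ) = (x : ℚ) ^ 2 - k * (y : ℚ) ^ 2 := by
    unfold nm
    push_cast
    ring
  rw [h1] at hne' ⊢
  have h2 : (k : ℚ) - ((x : ℚ) / (y : ℚ)) ^ 2 ≠ 0 := by
    intro h
    apply hne'
    have h3 : (k : ℚ) * (y : ℚ) ^ 2 - (x : ℚ) ^ 2 = 0 := by
      have h4 : ((k : ℚ) - ((x : ℚ) / (y : ℚ)) ^ 2) * (y : ℚ) ^ 2 = 0 := by rw [h, zero_mul]
      rw [← h4]
      field_simp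
    linarith
  unfold R
  rw [div_mul_eq_mul_div, div_eq_iff h2]
  field_simp
  ring

theorem lowest {x y p q : ℕ} (hy : 0 < y) (hq : 0 < q) (hxy : Nat.Coprime x y)
    (hpq : Nat.Coprime p q) (h : (x : ℝ) / (y : ℝ) = (p : ℝ) / (q : ℝ)) : x = p ∧ y = q := by
  have hy' : (y : ℝ) ≠ 0 := by exact_mod_cast hy.ne'
  have hq' : (q : ℝ) ≠ 0 := by exact_mod_cast hq.ne'
  rw [div_eq_div_iff hy' hq'] at h
  have h1 : x * q = p * y := by exact_mod_cast h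
  have h2 : y ∣ q := by
    have h3 : y ∣ x * q := ⟨p, by rw [h1, mul_comm]⟩
    exact Nat.Coprime.dvd_of_dvd_mul_left hxy.symm h3
  have h4 : q ∣ y := by
    have h5 : q ∣ p * y := ⟨x, by rw [← h1, mul_comm]⟩
    exact Nat.Coprime.dvd_of_dvd_mul_left hpq.symm h5
  have h6 : y = q := Nat.dvd_antisymm h2 h4
  refine ⟨?_, h6⟩
  rw [← h6] at h1
  exact Nat.eq_of_mul_eq_mul_right hy h1

end RGM

theorem specRG : SpecRG := by
  intro k x y hk hx hy hc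
  have hne := RGM.nm_ne hk hy hc
  have hR := RGM.R_eq hk hy hc
  refine ⟨⟨?_, ?_⟩, ⟨?_, ?_⟩⟩
  · rintro ⟨z, hz⟩
    rw [hz] at hR
    refine ⟨-z, ?_⟩
    have h1 : (z : ℤ) * nm k x y = -(4 * (x : ℤ) ^ 2) := by exact_mod_cast hR
    linarith
  · rintro ⟨c, hc'⟩
    refine ⟨-c, ?_⟩
    have hne' : ((nm k x y : ℤ) : ℚ) ≠ 0 := by exact_mod_cast hne
    apply mul_right_cancel₀ hne'
    rw [hR]
    have h1 : (4 : ℚ) * (x : ℚ) ^ 2 = (nm k x y : ℚ) * c := by exact_mod_cast hc'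
    rw [h1]
    push_cast
    ring
  · rintro ⟨p, q, hp, hq, hpq, h1, h2⟩
    have h3 : (x : ℝ) / (y : ℝ) = (p : ℝ) / (q : ℝ) := OnePoint.coe_injective h2
    obtain ⟨rfl, rfl⟩ := RGM.lowest hy hq hc hpq h3
    unfold nm
    rcases h1 with h1 | h1
    · rw [h1]; rfl
    · rw [h1]; rfl
  · intro h
    refine ⟨x, y, hx, hy, hc, ?_, rfl⟩
    unfold nm at h
    rcases Int.natAbs_eq ((x : ℤ) ^ 2 - (k : ℤ) * (y : ℤ) ^ 2) with h1 | h1
    · left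
      rw [h1, h]
      rfl
    · right
      rw [h1, h]
      rfl

end Pool.Agent.Lib.MP_c624c9_nt.EX
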