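import Pool.Agent.Lib.MP_c624c9_nt.EX.Spec

set_option autoImplicit false

namespace Pool.Agent.Lib.MP_c624c9_nt.EX

theorem specSQF : SpecSQF := by
  intro k s hk hsq hdiv
  have hs : s ≤ 2 := by
    rcases Nat.even_or_odd s with ⟨u, hu⟩ | hodd
    · have h1 : s ^ 2 = 4 * (u * u) := by rw [hu]; ring
      rw [h1] at hdiv
      have h2 : u * u ∣ k := Nat.dvd_of_mul_dvd_mul_left (by norm_num) hdiv
      have h3 := Nat.isUnit_iff.1 (hsq u h2)
      omega
    · have hc : Nat.Coprime (s ^ 2) 4 := by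
        have h4 : (4 : ℕ) = 2 ^ 2 := by norm_num
        rw [h4]
        exact ((Nat.coprime_two_right.2 hodd).pow_right 2).pow_left 2
      have h2 : s ^ 2 ∣ k := hc.dvd_of_dvd_mul_left hdiv
      rw [pow_two] at h2
      have h3 := Nat.isUnit_iff.1 (hsq s h2)
      omega
  have h4 : s ^ 4 ≤ 2 ^ 4 := Nat.pow_le_pow_left hs 4
  norm_num at h4
  omega

end Pool.Agent.Lib.MP_c624c9_nt.EX
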