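import Pool.Agent.Lib.MP_c624c9_nt.EX.Main
import Pool.Agent.Lib.MP_c624c9_nt.EX.SQF

/-!
# EX: squarefree `k` (helper85)
-/

set_option autoImplicit false

open OnePoint

namespace Pool.Agent.Lib.MP_c624c9_nt.EX

namespace SmallM

open MAINM

/-- The seed when a small fraction `x'/1` has small norm. -/
theorem small (cf : SpecCF) (leg : SpecLEG) (rg : SpecRG) {k x' : ℕ} (hk : ¬ IsSquare k)
    (hx' : 0 < x') (hn : nm k x' 1 ^ 2 < k) (hd : nm k x' 1 ∣ 4 * (x' : ℤ) ^ 2) {i : ℕ}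
    (hs : IsSeed k i) : ∃ a : ℕ, Nat.sqrt k ≤ a ∧ a ≤ x' ∧ (conv k i).num = a ∧
      (conv k i).den = 1 := by
  obtain ⟨p, q, hpq, hp, hq, hN, hp0, hq0⟩ := cf k hk
  have hn' : nm k (x' : ℤ) ((1 : ℕ) : ℤ) ^ 2 < k := by exact_mod_cast hn
  obtain ⟨i', hi'⟩ := leg k x' 1 hk hx' one_pos (Nat.coprime_one_right x') hn'
  have hR := (rg k x' 1 hk hx' one_pos (Nat.coprime_one_right x')).1.2 (by exact_mod_cast hd)
  rw [← hi'] at hR
  have hii : i ≤ i' := by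
    by_contra hlt'
    exact hs.2 i' (not_le.1 hlt') hR
  obtain ⟨h1, h2, h3, h4⟩ := hpq i'
  obtain ⟨ea, eb⟩ := lowest h2 one_pos h3 (Nat.coprime_one_right x') (h4.symm.trans hi')
  obtain ⟨g1, g2, g3, g4⟩ := hpq i
  have hqi : q i = 1 := by
    have : q i ≤ 1 := eb ▸ hq hii
    omega
  refine ⟨p i, ?_, ?_, ?_, ?_⟩
  · rw [← hp0]
    exact hp.monotone (Nat.zero_le i)
  · rw [← ea]
    exact hp.monotone hii
  · rw [g4, hqi]
    simp
  · rw [g4, hqi]
    simp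

theorem check13 : ∀ a : ℕ, a < 19 → ∀ b : ℕ, b < 6 → 0 < b →
    (nm 13 (a : ℤ) (b : ℤ)).natAbs = 1 → a = 18 ∧ b = 5 := by
  unfold nm
  decide

theorem case13 (cf : SpecCF) (leg : SpecLEG) (itr : SpecITR) (rg : SpecRG) : Q1At 13 := by
  classical
  have hk : ¬ IsSquare (13 : ℕ) := by
    rintro ⟨m, hm⟩
    have h1 : m < 4 := by nlinarith
    interval_cases m <;> omega
  obtain ⟨p, q, hpq, hp, hq, hN, hp0, hq0⟩ := cf 13 hk
  have hsq : Nat.sqrt 13 = 3 := (Nat.eq_sqrt.2 ⟨by norm_num, by norm_num⟩).symm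
  have hc0 : conv 13 0 = ((3 : ℕ) : ℚ) / ((1 : ℕ) : ℚ) := by
    rw [(hpq 0).2.2.2, hp0, hq0, hsq]
  have hseed : IsSeed 13 0 := by
    refine ⟨?_, fun j hj => absurd hj (Nat.not_lt_zero j)⟩
    rw [hc0]
    exact (rg 13 3 1 hk (by norm_num) (by norm_num) (by norm_num)).1.2 (by unfold nm; norm_num)
  have hpell : ∀ i, IsPellian 13 (((conv 13 i : ℝ)) : OnePoint ℝ) ↔
      (nm 13 (p i) (q i)).natAbs = 1 := by
    intro i
    obtain ⟨h1, h2, h3, h4⟩ := hpq i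
    have := (rg 13 (p i) (q i) hk h1 h2 h3).2
    rw [h4]
    push_cast
    exact this
  have hP : IsPellian 13 ((((18 : ℕ) : ℝ) / ((5 : ℕ) : ℝ) : ℝ) : OnePoint ℝ) :=
    (rg 13 18 5 hk (by norm_num) (by norm_num) (by norm_num)).2.2 (by unfold nm; norm_num)
  obtain ⟨i', hi'⟩ := leg 13 18 5 hk (by norm_num) (by norm_num) (by norm_num)
    (by unfold nm; norm_num)
  have hPi' : IsPellian 13 (((conv 13 i' : ℝ)) : OnePoint ℝ) := by
    rw [hi']
    push_cast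
    push_cast at hP
    exact hP
  have hex : ∃ i, IsPellian 13 (((conv 13 i : ℝ)) : OnePoint ℝ) := ⟨i', hPi'⟩
  obtain ⟨j, hj⟩ : ∃ j, IsFirstConv 13 j := ⟨Nat.find hex, Nat.find_spec hex, fun i hi =>
    Nat.find_min hex hi⟩
  have hji : j ≤ i' := by
    by_contra hlt
    exact hj.2 i' (not_le.1 hlt) hPi'
  obtain ⟨h1, h2, h3, h4⟩ := hpq i'
  obtain ⟨ea, eb⟩ := lowest h2 (by norm_num : 0 < 5) h3 (by norm_num) (h4.symm.trans hi')
  obtain ⟨g1, g2, g3, g4⟩ := hpq j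
  have hpj : p j ≤ 18 := ea ▸ hp.monotone hji
  have hqj : q j ≤ 5 := eb ▸ hq hji
  have hnj : (nm 13 (p j) (q j)).natAbs = 1 := (hpell j).1 hj.1
  obtain ⟨ep, eq⟩ := check13 (p j) (by omega) (q j) (by omega) g2 hnj
  have hcj : (((conv 13 j : ℝ)) : OnePoint ℝ) = ((((18 : ℕ) : ℝ) / ((5 : ℕ) : ℝ) : ℝ) : OnePoint ℝ) := by
    rw [g4, ep, eq]
    push_cast
    rfl
  have hit : ∀ n, (f 13 (conv 13 0))^[n + 1] ∞ =
      ((((pw 13 3 1 (n + 1)).1 : ℝ) / ((pw 13 3 1 (n + 1)).2 : ℝ) : ℝ) : OnePoint ℝ) := by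
    intro n
    rw [hc0]
    exact (itr 13 3 1 n (by norm_num) (by norm_num) (by norm_num)).2.2
  have hf3 : (f 13 (conv 13 0))^[3] ∞ = ((((18 : ℕ) : ℝ) / ((5 : ℕ) : ℝ) : ℝ) : OnePoint ℝ) := by
    rw [hit 2]
    congr 1
    have h : pw 13 3 1 (2 + 1) = (144, 40) := by rfl
    rw [h]
    norm_num
  refine ⟨0, 3, j, hseed, ⟨by norm_num, ?_, ?_⟩, hj, ?_⟩
  · rw [hf3]; exact hP
  · intro m hm1 hm3
    have h12 : m = 1 ∨ m = 2 := by omega
    rcases h12 with rfl | rfl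
    · have h5 : (f 13 (conv 13 0))^[1] ∞ = ((((3 : ℕ) : ℝ) / ((1 : ℕ) : ℝ) : ℝ) : OnePoint ℝ) := by
        rw [hit 0]
        congr 1
      rw [h5, (rg 13 3 1 hk (by norm_num) (by norm_num) (by norm_num)).2]
      unfold nm; norm_num
    · have h5 : (f 13 (conv 13 0))^[2] ∞ =
          ((((11 : ℕ) : ℝ) / ((3 : ℕ) : ℝ) : ℝ) : OnePoint ℝ) := by
        rw [hit 1]
        congr 1
        have h : pw 13 3 1 (1 + 1) = (22, 6) := by rfl
        rw [h]
        norm_num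
      rw [h5, (rg 13 11 3 hk (by norm_num) (by norm_num) (by norm_num)).2]
      unfold nm; norm_num
  · rw [hf3, hcj]

end SmallM

open SmallM in
/-- Q1 is true for squarefree `k`. -/
theorem squarefree_case (cf : SpecCF) (leg : SpecLEG) (itr : SpecITR) (rg : SpecRG)
    (main : SpecMAIN) (sqf : SpecSQF) (k : ℕ) (hk1 : k ≠ 1) (hsq : Squarefree k) : Q1At k := by
  have hk : ¬ IsSquare k := by
    rintro ⟨m, hm⟩
    have h1 := hsq m ⟨1, by rw [hm, mul_one]⟩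
    rw [Nat.isUnit_iff] at h1
    rw [h1] at hm
    exact hk1 hm
  rcases main k hk with h | ⟨i, s, hi, hN, hd, h1, h2⟩
  · exact h
  by_cases h16 : 16 ≤ k
  · exact absurd h1 (sqf k s h16 hsq hd)
  have hk2 := MAINM.two_le hk
  have hs2 : s = 2 := by
    have hs3 : s < 3 := by
      by_contra h
      have h3 : 3 ^ 4 ≤ s ^ 4 := Nat.pow_le_pow_left (not_lt.1 h) 4
      omega
    interval_cases s
    · omega
    · omega
    · rfl
  subst hs2
  have h4 : ¬ (2 * 2 ∣ k) := by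
    intro h
    have := hsq 2 h
    rw [Nat.isUnit_iff] at this
    omega
  have h9 : ¬ (3 * 3 ∣ k) := by
    intro h
    have := hsq 3 h
    rw [Nat.isUnit_iff] at this
    omega
  have hk5 : 5 ≤ k := by omega
  have hk15 : k ≤ 15 := by omega
  by_cases h13 : k = 13
  · rw [h13]
    exact case13 cf leg itr rg
  exfalso
  have hcases : k = 5 ∨ k = 6 ∨ k = 7 ∨ k = 10 ∨ k = 11 ∨ k = 14 ∨ k = 15 := by
    omega
  have key : ∀ x' : ℕ, 0 < x' → nm k x' 1 ^ 2 < k → nm k x' 1 ∣ 4 * (x' : ℤ) ^ 2 →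
      ∃ a : ℕ, Nat.sqrt k ≤ a ∧ a ≤ x' ∧ (nm k a 1).natAbs = 4 := by
    intro x' h1 h2 h3
    obtain ⟨a, g1, g2, g3, g4⟩ := small cf leg rg hk h1 h2 h3 hi
    refine ⟨a, g1, g2, ?_⟩
    rw [g3, g4] at hN
    exact_mod_cast hN
  rcases hcases with rfl | rfl | rfl | rfl | rfl | rfl | rfl
  · obtain ⟨a, g1, g2, g3⟩ := key 2 (by norm_num) (by unfold nm; norm_num) (by unfold nm; norm_num)
    have hs : Nat.sqrt 5 = 2 := (Nat.eq_sqrt.2 ⟨by norm_num, by norm_num⟩).symm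
    rw [hs] at g1
    unfold nm at g3
    interval_cases a <;> norm_num at g3
  · obtain ⟨a, g1, g2, g3⟩ := key 2 (by norm_num) (by unfold nm; norm_num) (by unfold nm; norm_num)
    have hs : Nat.sqrt 6 = 2 := (Nat.eq_sqrt.2 ⟨by norm_num, by norm_num⟩).symm
    rw [hs] at g1
    unfold nm at g3
    interval_cases a <;> norm_num at g3
  · obtain ⟨a, g1, g2, g3⟩ := key 3 (by norm_num) (by unfold nm; norm_num) (by unfold nm; norm_num)
    have hs : Nat.sqrt 7 = 2 := (Nat.eq_sqrt.2 ⟨by norm_num, by norm_num⟩).symm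
    rw [hs] at g1
    unfold nm at g3
    interval_cases a <;> norm_num at g3
  · obtain ⟨a, g1, g2, g3⟩ := key 3 (by norm_num) (by unfold nm; norm_num) (by unfold nm; norm_num)
    have hs : Nat.sqrt 10 = 3 := (Nat.eq_sqrt.2 ⟨by norm_num, by norm_num⟩).symm
    rw [hs] at g1
    unfold nm at g3
    interval_cases a <;> norm_num at g3
  · obtain ⟨a, g1, g2, g3⟩ := key 3 (by norm_num) (by unfold nm; norm_num) (by unfold nm; norm_num)
    have hs : Nat.sqrt 11 = 3 := (Nat.eq_sqrt.2 ⟨by norm_num, by norm_num⟩).symm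
    rw [hs] at g1
    unfold nm at g3
    interval_cases a <;> norm_num at g3
  · obtain ⟨a, g1, g2, g3⟩ := key 4 (by norm_num) (by unfold nm; norm_num) (by unfold nm; norm_num)
    have hs : Nat.sqrt 14 = 3 := (Nat.eq_sqrt.2 ⟨by norm_num, by norm_num⟩).symm
    rw [hs] at g1
    unfold nm at g3
    interval_cases a <;> norm_num at g3
  · obtain ⟨a, g1, g2, g3⟩ := key 4 (by norm_num) (by unfold nm; norm_num) (by unfold nm; norm_num)
    have hs : Nat.sqrt 15 = 3 := (Nat.eq_sqrt.2 ⟨by norm_num, by norm_num⟩).symm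
    rw [hs] at g1
    unfold nm at g3
    interval_cases a <;> norm_num at g3

end Pool.Agent.Lib.MP_c624c9_nt.EX
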