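import Mathlib

/-!
# EX: where Q1 of MP_c624c9_nt is true and where it is false (captain helper85)

GOAL.  (1) Q1 is false.  (2) For every `w ≥ 2` and `k = (2w-1)(2w+1)^3` the seed `d(k)` is the
convergent of index 3, the first Pellian iterate has `n = 2w+1`, and it is not the first Pellian
convergent.  (3) If no `s` has `s^2 ∣ 4k` and `k < s^4 < 4k`, then Q1 is true for `k`.  (4) So it
is true for all squarefree `k ≥ 16`, and it fails for at most `12 X^(3/4)` of the `k ≤ X`.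

Modules: file `Pool/Agent/Lib/MP_c624c9_nt/EX/XXX.lean`, import only this file, namespace
`Pool.Agent.Lib.MP_c624c9_nt.EX`, `theorem specXXX (hYYY : SpecYYY) ... : SpecXXX` (the hypotheses
in the order after 'from'); private helper lemmas in a namespace `XXXM`.
-/

set_option autoImplicit false

open OnePoint

namespace Pool.Agent.Lib.MP_c624c9_nt.EX

/-- The map `f_d(x) = (d x + k)/(x + d)` on `ℝ ∪ {∞}`, with `f_d(∞) = d` and `f_d(-d) = ∞`. -/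
noncomputable def f (k : ℕ) (d : ℚ) : OnePoint ℝ → OnePoint ℝ
  | ∞ => (((d : ℝ)) : OnePoint ℝ)
  | OnePoint.some x =>
      if x + (d : ℝ) = 0 then ∞ else ((((d : ℝ) * x + k) / (x + d) : ℝ) : OnePoint ℝ)

/-- `R(k,d) = 4 d^2 / (k - d^2)`. -/
def R (k : ℕ) (d : ℚ) : ℚ := 4 * d ^ 2 / ((k : ℚ) - d ^ 2)

/-- The point `x` of `ℝ ∪ {∞}` is a Pellian fraction for `k`: it equals `p/q` with `p, q > 0`
coprime and `p^2 - k q^2 = 1` or `p^2 - k q^2 = -1`. -/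
def IsPellian (k : ℕ) (x : OnePoint ℝ) : Prop :=
  ∃ p q : ℕ, 0 < p ∧ 0 < q ∧ Nat.Coprime p q ∧
    ((p : ℤ) ^ 2 - (k : ℤ) * (q : ℤ) ^ 2 = 1 ∨ (p : ℤ) ^ 2 - (k : ℤ) * (q : ℤ) ^ 2 = -1) ∧
    x = (((p : ℝ) / (q : ℝ) : ℝ) : OnePoint ℝ)

/-- The convergent of index `i` (starting with `i = 0`, the integer part) of the regular
continued fraction of `√k`. -/
noncomputable def conv (k : ℕ) (i : ℕ) : ℚ := (Real.sqrt (k : ℝ)).convergent i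

/-- `d(k)` is the convergent of index `i`: the least index for which `R` is an integer. -/
def IsSeed (k i : ℕ) : Prop :=
  (∃ z : ℤ, R k (conv k i) = z) ∧ ∀ j < i, ¬ ∃ z : ℤ, R k (conv k j) = z

/-- The first Pellian iterate `f_d^n(∞)`, `n ≥ 1`, is the one with exponent `n`. -/
def IsFirstIter (k : ℕ) (d : ℚ) (n : ℕ) : Prop :=
  1 ≤ n ∧ IsPellian k ((f k d)^[n] ∞) ∧ ∀ m, 1 ≤ m → m < n → ¬ IsPellian k ((f k d)^[m] ∞)

/-- The first Pellian convergent is the one of index `j`. -/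
def IsFirstConv (k j : ℕ) : Prop :=
  IsPellian k (((conv k j : ℝ)) : OnePoint ℝ) ∧
    ∀ i < j, ¬ IsPellian k (((conv k i : ℝ)) : OnePoint ℝ)

/-- Q1 is true for `k`: for the seed `d(k)` the first Pellian iterate is the first Pellian
convergent. -/
def Q1At (k : ℕ) : Prop :=
  ∃ i n j : ℕ, IsSeed k i ∧ IsFirstIter k (conv k i) n ∧ IsFirstConv k j ∧
    (f k (conv k i))^[n] ∞ = (((conv k j : ℝ)) : OnePoint ℝ)

/-- The norm of `x + y √k`. -/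
def nm (k : ℕ) (x y : ℤ) : ℤ := x ^ 2 - k * y ^ 2

/-- `(x + y √k)^n = X + Y √k` with `(X, Y) = pw k x y n`. -/
def pw (k x y : ℕ) : ℕ → ℕ × ℕ
  | 0 => (1, 0)
  | n + 1 => (x * (pw k x y n).1 + k * y * (pw k x y n).2, y * (pw k x y n).1 + x * (pw k x y n).2)

/-- CF (no dependence). Facts on the convergents of `ξ = √k`.
PROOF. For real `ξ` put `mat ξ 0 = (⌊ξ⌋, 1, 1, 0) =: (P, Q, P', Q')` and, with `ξ' = (fract ξ)⁻¹`
and `(P, Q, P', Q') = mat ξ' n`, `mat ξ (n+1) = (a P + Q, P, a P' + Q', P')`, `a = ⌊ξ⌋`; put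
`tl ξ 0 = ξ'`, `tl ξ (n+1) = tl ξ' n`. For irrational `ξ > 1` (all `ξ'` are again irrational and
`> 1`) induction on `n`, generalizing `ξ`, gives: `P, Q ≥ 1`, `Q' ≥ 0`, `ξ.convergent n = P/Q`
(`Real.convergent_zero, Real.convergent_succ`), `P Q' - P' Q = ± 1` (so coprime),
`ξ (Q ω + Q') = P ω + P'` with `ω = tl ξ n > 1`, and comparison of `n` and `n+1`: `P` strictly
increases, `Q` does not decrease, and `P', Q'` of index `n+1` are the `P, Q` of index `n`.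
So `|P - Q ξ| (Q ω + Q') = 1`, whence `|P - Q ξ| (Q + Q') < 1`. With `ε = |P - Q ξ|`:
if `P < Q ξ` then `|P^2 - ξ^2 Q^2| = ε (P + Q ξ) < 2 ξ Q ε < 2 ξ`. If `P > Q ξ` then `n ≥ 1` (for
`n = 0`, `P = ⌊ξ⌋ < ξ`), so `Q' ≥ 1`, `(Q + 1) ε < 1`, and
`ε (P + Q ξ) = 2 ξ Q ε + ε^2 < 2 ξ` because `1 - Q ε > 1/(Q+1)·(..)`: `1 - Q ε > ε ≥ ε^2` and
`2 ξ > 1`. Square: `nm^2 < 4 k`. (For `k = 2, 3, ..`: `√k > 1`, irrational by
`Nat.Prime.irrational_sqrt` or `irrational_sqrt_natCast_iff`.) -/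
def SpecCF : Prop := ∀ k : ℕ, ¬ IsSquare k → ∃ p q : ℕ → ℕ,
  (∀ i, 0 < p i ∧ 0 < q i ∧ Nat.Coprime (p i) (q i) ∧ conv k i = (p i : ℚ) / (q i : ℚ)) ∧
  StrictMono p ∧ Monotone q ∧ (∀ i, nm k (p i) (q i) ^ 2 < 4 * k) ∧
  p 0 = Nat.sqrt k ∧ q 0 = 1

/-- LEG (no dependence). A fraction with small norm is a convergent.
PROOF. Let `N = x^2 - k y^2`, `N ≠ 0`. If `N > 0`: `|√k - x/y| = N / (y^2 (√k + x/y))` and
`√k + x/y > 2 √k > 2 N`: `Real.exists_rat_eq_convergent` (Mathlib, `|ξ - q| < 1/(2 q.den^2)`).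
If `N < 0`: apply it to `ξ = 1/√k` and `y/x`: `|1/√k - y/x| = |N| / (x √k (x + y √k)) <
1/(2 x^2)` since `2 x |N| < 2 x √k < √k (x + y √k)`. So `y/x` is a convergent of `1/√k`, whose
integer part is `0` and whose convergents of index `n+1` are the inverses of the convergents of
`√k` of index `n` (`Real.convergent_succ`); index `0` would give `y/x = 0`. -/
def SpecLEG : Prop := ∀ k x y : ℕ, ¬ IsSquare k → 0 < x → 0 < y → Nat.Coprime x y →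
  nm k x y ^ 2 < k → ∃ i, conv k i = (x : ℚ) / (y : ℚ)

/-- ITR (no dependence). The iterates of `∞`. Induction on `n`; all numbers are positive. -/
def SpecITR : Prop := ∀ k x y n : ℕ, 0 < k → 0 < x → 0 < y →
  0 < (pw k x y (n + 1)).1 ∧ 0 < (pw k x y (n + 1)).2 ∧
  (f k ((x : ℚ) / (y : ℚ)))^[n + 1] ∞ =
    ((((pw k x y (n + 1)).1 : ℝ) / ((pw k x y (n + 1)).2 : ℝ) : ℝ) : OnePoint ℝ)

/-- POW (no dependence). The primitive part of `α^n`, `α = x + y √k`, `N = nm α ∣ 4 x^2`, has a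
norm dividing `N`; for even `n` it divides `s^2`, `s = N / gcd(N, 2x)`, and `s^2 ∣ N`.
PROOF. `α^2 = 2 x α - N`. ODD `n = 2j+1`: there are integers `A_j, B_j` with
`α^(2j+1) = N^j (A_j + B_j √k)`: `β = α^2/N`, `β α = (t-1) α - 2x` with `t = 4x^2/N` an integer,
`β^2 = (t-2) β - 1`, so `β^(j+2) α = (t-2) β^(j+1) α - β^j α` and induction from `j = 0, 1`. The norm
of `A_j + B_j √k` is `N`, so that of its primitive part divides `N`.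
EVEN `n = 2j`: `s β = (2x/g') α - s`, where `g' = gcd(N, 2x)`, `N = s g'`: `s β` has integer
coordinates; so has `s β^j` (same recursion, from `s` and `s β`), of norm `s^2`, and the primitive
part of `α^(2j)` is that of `s β^j`. `s^2 ∣ N`: for `N = s g'`, `N ∣ (2x)^2` gives `s ∣ g'` : indeed
`2x = g' m` with `gcd(s, m) = 1`, `s g' ∣ g'^2 m^2`, so `s ∣ g' m^2`, `s ∣ g'`.
(Work with `pw k x y n = (c X, c Y)`, `c = gcd` of the two numbers.) -/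
def SpecPOW : Prop := ∀ k x y n : ℕ, ¬ IsSquare k → 0 < x → 0 < y → Nat.Coprime x y →
  nm k x y ∣ 4 * (x : ℤ) ^ 2 →
  ∃ c X Y : ℕ, 0 < c ∧ pw k x y n = (c * X, c * Y) ∧ Nat.Coprime X Y ∧
    nm k X Y ∣ nm k x y ∧
    (Even n → nm k X Y ∣ (nm k x y / (Int.gcd (nm k x y) (2 * x) : ℤ)) ^ 2 ∧
      (nm k x y / (Int.gcd (nm k x y) (2 * x) : ℤ)) ^ 2 ∣ nm k x y)

/-- GRP (no dependence). The elements with integral `4 x^2 / N` are closed under products.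
PROOF. Put `T = (4x^2 - 2N)/N = 2(x^2 + k y^2)/N` (an integer by hypothesis), `S = 4 x y/N`
(rational), the same with primes. `k S^2 = T^2 - 4`. For the product `(X, Y)`, `N'' = N N'`,
`T'' = 2 (X^2 + k Y^2)/N'' = (T T' + k S S')/2` (ring identity). `W = k S S'` is rational and
`W^2 = (T^2-4)(T'^2-4)` is an integer, so `W` is an integer, and `W^2 ≡ (T T')^2 mod 2`, so
`T T' + W` is even, `T''` is an integer, `4 X^2 / N'' = T'' + 2`. -/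
def SpecGRP : Prop := ∀ (k : ℕ) (x y x' y' : ℤ), nm k x y ≠ 0 → nm k x' y' ≠ 0 →
  nm k x y ∣ 4 * x ^ 2 → nm k x' y' ∣ 4 * x' ^ 2 →
  nm k (x * x' + k * y * y') (x * y' + y * x') ∣ 4 * (x * x' + k * y * y') ^ 2

/-- RG (no dependence). (1) `R(k, x/y) = -4 x^2 / nm k x y`. (2) For coprime `x, y > 0`: `x/y` is
Pellian iff its norm is `± 1` (the lowest terms of a positive rational are unique). -/
def SpecRG : Prop := ∀ k x y : ℕ, ¬ IsSquare k → 0 < x → 0 < y → Nat.Coprime x y →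
  ((∃ z : ℤ, R k ((x : ℚ) / (y : ℚ)) = z) ↔ nm k x y ∣ 4 * (x : ℤ) ^ 2) ∧
  (IsPellian k ((((x : ℝ) / (y : ℝ) : ℝ)) : OnePoint ℝ) ↔ (nm k x y).natAbs = 1)

/-- MAIN (from CF, LEG, ITR, POW, GRP, RG; helper85). -/
def SpecMAIN : Prop := ∀ k : ℕ, ¬ IsSquare k → Q1At k ∨ ∃ i s : ℕ, IsSeed k i ∧
  (nm k (conv k i).num (conv k i).den).natAbs = s ^ 2 ∧ s ^ 2 ∣ 4 * k ∧ k < s ^ 4 ∧ s ^ 4 < 4 * k

/-- FA (no dependence). The first four convergents of `√k`, `k = (2w-1)(2w+1)^3`; with `x = 2w`: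
complete quotients `(P + √k)/Q`: `(P,Q) = (0,1), (x^2+x-1, x^2-2), (x^2-x-3, 4x+5),
(x^2-w-2, 3w^2-1)`, partial quotients `x^2+x-1, 2, w-1, 2`. The floors follow from
`x^2+x-1 < √k < x^2+x` (`k = (x^2+x-1)^2 + x^2 - 2 = (x^2+x)^2 - (x+1)^2`) and `w ≥ 2`, e.g.
`2 ≤ (P1+√k)/Q1 < 3` iff `x^2-x-3 ≤ √k < 2x^2-x-5`; `w-1 ≤ (P2+√k)/Q2 < w` iff
`4w^2-w-2 ≤ √k < (4w+3)(w+1)`; `2 ≤ (P3+√k)/Q3 < 3` iff `2w^2+w ≤ √k < 5w^2+w-1`.
(The lemma `step` of `Pool/Agent/Results/MP_c624c9_nt/Counterexample.lean`, by helper93, with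
`375` replaced by `k`, does this.) -/
def SpecFA : Prop := ∀ w : ℕ, 2 ≤ w →
  conv ((2 * w - 1) * (2 * w + 1) ^ 3) 0 = 4 * (w : ℚ) ^ 2 + 2 * w - 1 ∧
  conv ((2 * w - 1) * (2 * w + 1) ^ 3) 1 = (8 * (w : ℚ) ^ 2 + 4 * w - 1) / 2 ∧
  conv ((2 * w - 1) * (2 * w + 1) ^ 3) 2 = (w * (8 * (w : ℚ) ^ 2 - 3)) / (2 * w - 1) ∧
  conv ((2 * w - 1) * (2 * w + 1) ^ 3) 3 = ((8 * (w : ℚ) ^ 2 - 1) * (2 * w + 1)) / (4 * w)

/-- FB (from FA, RG). `IsSeed k 3`. By RG it is enough to look at `N ∣ 4 p^2` for the four fractions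
(in lowest terms; or directly: `R = -4p^2/N` for any representation).
Index 0: `N = -(4w^2-2)`, `p = 4w^2+2w-1`: `4w^2-2 ∣ 4 p^2` gives `4w^2-2 ∣ 16w+12` (mod `4w^2-2`:
`p ≡ 2w+1`, `4 (2w+1)^2 ≡ 16 w + 12`), so `2w^2-1 ∣ 8w+6`, odd, so `2w^2-1 ∣ 4w+3`: `w ≤ 3`, and
`7 ∤ 11`, `17 ∤ 15`. Index 1: `N = 8w+5`, `p = 8w^2+4w-1`, `8 p ≡ -3 mod N`, so `N ∣ 4 p^2` gives
`N ∣ 9` (odd): no. Index 2: `N = -(3w^2-1)`, `p = w(8w^2-3)`: `27·4·p^2 ≡ 4 mod 3w^2-1`, so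
`3w^2-1 ∣ 4`: no. Index 3: `p = (8w^2-1)(2w+1)`, `N = (2w+1)^2`: `R = -4 (8w^2-1)^2`. Also `k` is not
a square (`(x^2+x-1)^2 < k < (x^2+x)^2`). -/
def SpecFB : Prop := ∀ w : ℕ, 2 ≤ w → ¬ IsSquare ((2 * w - 1) * (2 * w + 1) ^ 3) ∧
  IsSeed ((2 * w - 1) * (2 * w + 1) ^ 3) 3

/-- FC (from ITR, RG, CF, LEG). The first Pellian iterate of the seed
`d = (8w^2-1)(2w+1)/(4w)` of `k = (2w-1)(2w+1)^3` is `n = 2w+1` and it is not the first Pellian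
convergent. PROOF. `x = 2w`, `D = x^2 - 1`, `√k = (x+1) √D`, `θ = x + √D` (norm 1). Integers
`A_n + B_n √D = θ^(2n)`: `A_{n+1} = (2x^2-1) A_n + 2xD B_n`, `B_{n+1} = 2x A_n + (2x^2-1) B_n`; they are
`> 0` for `n ≥ 1`, coprime, and mod `x+1`: `A_n ≡ 1`, `B_n ≡ -2n`. `pw` of the pair
`((8w^2-1)(2w+1), 4w)` is `(x+1)^n (A_n, B_n/(x+1))` (as `α = (x+1) θ^2`), so the iterate is
`A_n (x+1) / B_n`. In lowest terms, with `g = gcd(x+1, B_n)`: `(A_n (x+1)/g) / (B_n/g)`, of norm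
`((x+1)/g)^2`, so it is Pellian iff `x+1 ∣ B_n` iff `x+1 ∣ 2n` iff `2w+1 ∣ n` (odd): first for
`n = 2w+1`, and then it is `A_n / (B_n/(x+1))` with `A_n + B_n √D = θ^(4w+2)`.
With `C + E √D = θ^(2w+1)`, `E = A_w + x B_w ≡ 1 + 2w ≡ 0 mod x+1`: `C/(E/(x+1))` is Pellian, so
a convergent (LEG, `1 < k`), and `C + E √D < θ^(4w+2)`. The first Pellian convergent has a smaller
or equal index, so by CF (`p` strictly increasing) its numerator is at most `C`, and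
`C < A_{2w+1}` (`A_{2w+1} = 2 C^2 - 1`). -/
def SpecFC : Prop := ∀ w : ℕ, 2 ≤ w →
  IsFirstIter ((2 * w - 1) * (2 * w + 1) ^ 3)
    ((((8 * w ^ 2 - 1) * (2 * w + 1) : ℕ) : ℚ) / ((4 * w : ℕ) : ℚ)) (2 * w + 1) ∧
  ∃ j, IsFirstConv ((2 * w - 1) * (2 * w + 1) ^ 3) j ∧
    (f ((2 * w - 1) * (2 * w + 1) ^ 3)
      ((((8 * w ^ 2 - 1) * (2 * w + 1) : ℕ) : ℚ) / ((4 * w : ℕ) : ℚ)))^[2 * w + 1] ∞ ≠
      (((conv ((2 * w - 1) * (2 * w + 1) ^ 3) j : ℝ)) : OnePoint ℝ)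

/-- CNT (no dependence). Counting the `k ≤ X` with a square divisor `s^2` of `4k`, `k < s^4 < 4k`:
`k ↦ (s, 4k/s^2)` is injective for a chosen `s`, `s^4 < 4X` and `4k/s^2 < 4 s^2`, so there are at most
`∑_{s : s^4 < 4X} 4 s^2 ≤ (4X)^(1/4) · 4 (4X)^(1/2) = 4 (4X)^(3/4) ≤ 12 X^(3/4)` of them
(`4·4^(3/4) = 11.31`). -/
def SpecCNT : Prop := ∀ X : ℕ,
  ({k : ℕ | k ≤ X ∧ ∃ s : ℕ, s ^ 2 ∣ 4 * k ∧ k < s ^ 4 ∧ s ^ 4 < 4 * k}.ncard : ℝ) ≤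
    12 * (X : ℝ) ^ (3 / 4 : ℝ)

/-- SQF (no dependence). If `k ≥ 16` is squarefree then `s^2 ∣ 4k` forces `s ≤ 2`, so `s^4 ≤ 16`. -/
def SpecSQF : Prop := ∀ k s : ℕ, 16 ≤ k → Squarefree k → s ^ 2 ∣ 4 * k → ¬ k < s ^ 4

end Pool.Agent.Lib.MP_c624c9_nt.EX
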